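import Pool.Agent.H564.SP.Sparse

/-! Independent events with given probabilities. -/

set_option autoImplicit false

open MeasureTheory Filter Topology Set ProbabilityTheory

namespace Pool.Agent.H564.SC

open Pool.Agent.H564.SP (Dens)

/-- the uniform distribution on `[0, 1]` -/
noncomputable def unif : Measure ℝ := volume.restrict (Icc 0 1)

instance : IsProbabilityMeasure unif := ⟨by simp [unif]⟩

/-- the product -/
noncomputable def prodm : Measure (ℕ → ℝ) := Measure.infinitePi fun _ : ℕ => unif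

instance : IsProbabilityMeasure prodm := by
  unfold prodm
  infer_instance

/-- the events -/
def ev (δ : ℕ → ℝ) (p : ℕ) : Set (ℕ → ℝ) := {ω | ω p ≤ δ p}

theorem ev_meas (δ : ℕ → ℝ) (p : ℕ) : MeasurableSet (ev δ p) :=
  measurableSet_le (measurable_pi_apply p) measurable_const

theorem unif_Iic {d : ℝ} (h0 : 0 ≤ d) (h1 : d ≤ 1) : unif (Iic d) = ENNReal.ofReal d := by
  unfold unif
  rw [Measure.restrict_apply measurableSet_Iic]
  have : Iic d ∩ Icc 0 1 = Icc 0 d := by
    ext x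
    simp only [mem_inter_iff, mem_Iic, mem_Icc]
    constructor
    · exact fun h => ⟨h.2.1, h.1⟩
    · exact fun h => ⟨h.2, h.1, h.2.trans h1⟩
  rw [this, Real.volume_Icc, sub_zero]

theorem prod_inter (δ : ℕ → ℝ) (s : Finset ℕ) :
    prodm (⋂ i ∈ s, ev δ i) = ∏ i ∈ s, unif (Iic (δ i)) := by
  have e : (⋂ i ∈ s, ev δ i) = Set.pi (s : Set ℕ) fun i => Iic (δ i) := by
    ext ω
    simp only [mem_iInter, Set.mem_pi, mem_Iic, ev, Set.mem_ofPred_eq, Finset.mem_coe]
  rw [e]
  unfold prodm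
  rw [Measure.infinitePi_pi _ fun i _ => measurableSet_Iic]

theorem ev_prob {δ : ℕ → ℝ} (h0 : ∀ p, 0 ≤ δ p) (h1 : ∀ p, δ p ≤ 1) (p : ℕ) :
    prodm (ev δ p) = ENNReal.ofReal (δ p) := by
  have := prod_inter δ {p}
  simp only [Finset.mem_singleton, iInter_iInter_eq_left, Finset.prod_singleton] at this
  rw [this, unif_Iic (h0 p) (h1 p)]

theorem ev_indep {δ : ℕ → ℝ} (h0 : ∀ p, 0 ≤ δ p) (h1 : ∀ p, δ p ≤ 1) :
    iIndepSet (ev δ) prodm := by
  rw [iIndepSet_iff_meas_biInter (ev_meas δ)]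
  intro s
  rw [prod_inter]
  refine Finset.prod_congr rfl fun i _ => ?_
  rw [ev_prob h0 h1, unif_Iic (h0 i) (h1 i)]

/-- the probabilities `p^(-2η)` -/
noncomputable def del (η : ℝ) (p : ℕ) : ℝ := (max (p : ℝ) 1) ^ (-(2 * η))

theorem del_pos (η : ℝ) (p : ℕ) : 0 < del η p := by
  have : 0 < max (p : ℝ) 1 := lt_of_lt_of_le one_pos (le_max_right _ _)
  unfold del
  positivity

theorem del_le {η : ℝ} (hη : 0 ≤ η) (p : ℕ) : del η p ≤ 1 :=
  Real.rpow_le_one_of_one_le_of_nonpos (le_max_right _ _) (by linarith)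

theorem del_dens (η : ℝ) : Dens (del η) η := by
  intro ε hε
  filter_upwards [eventually_ge_atTop 1] with n hn _
  have h1 : (1 : ℝ) ≤ n := by exact_mod_cast hn
  unfold del
  rw [max_eq_left h1]
  exact ⟨Real.rpow_le_rpow_of_exponent_le h1 (by linarith),
    Real.rpow_le_rpow_of_exponent_le h1 (by linarith)⟩

end Pool.Agent.H564.SC
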