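import Mathlib

/-! Continuation of Dirichlet series by partial summation; growth of `L(s, χ)`. -/

set_option autoImplicit false

open MeasureTheory Filter Topology Set Complex

namespace Pool.Agent.H564.SC

/-- the continuation of a Dirichlet series by partial summation -/
noncomputable def cont (f : ℕ → ℂ) (s : ℂ) : ℂ :=
  s * ∫ t in Ioi (1 : ℝ), (∑ k ∈ Finset.Icc 1 ⌊t⌋₊, f k) * (t : ℂ) ^ (-(s + 1))

/-- the partial sums, as a function on the line -/
noncomputable def psum (f : ℕ → ℂ) (t : ℝ) : ℂ := ∑ k ∈ Finset.Icc 1 ⌊t⌋₊, f k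

theorem psum_meas (f : ℕ → ℂ) : Measurable (psum f) := by
  have : psum f = (fun n : ℕ => ∑ k ∈ Finset.Icc 1 n, f k) ∘ fun t : ℝ => ⌊t⌋₊ := rfl
  rw [this]
  exact (measurable_of_countable _).comp Nat.measurable_floor

theorem psum_le {f : ℕ → ℂ} {r C : ℝ} (hr : 0 ≤ r) (hC0 : 0 ≤ C)
    (hC : ∀ n : ℕ, ‖∑ k ∈ Finset.Icc 1 n, f k‖ ≤ C * (n : ℝ) ^ r) {t : ℝ} (ht : 0 ≤ t) :
    ‖psum f t‖ ≤ C * t ^ r := by
  refine (hC ⌊t⌋₊).trans (mul_le_mul_of_nonneg_left ?_ hC0)
  exact Real.rpow_le_rpow (Nat.cast_nonneg _) (Nat.floor_le ht) hr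

theorem mellin_eq (f : ℕ → ℂ) (s : ℂ) :
    mellin ((Ioi (1 : ℝ)).indicator (psum f)) (-s) =
      ∫ t in Ioi (1 : ℝ), (∑ k ∈ Finset.Icc 1 ⌊t⌋₊, f k) * (t : ℂ) ^ (-(s + 1)) := by
  unfold mellin
  have h1 : ∀ t : ℝ, (t : ℂ) ^ (-s - 1) • (Ioi (1 : ℝ)).indicator (psum f) t =
      (Ioi (1 : ℝ)).indicator (fun t : ℝ => psum f t * (t : ℂ) ^ (-(s + 1))) t := by
    intro t
    by_cases h : t ∈ Ioi (1 : ℝ)
    · rw [indicator_of_mem h, indicator_of_mem h, smul_eq_mul, mul_comm]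
      congr 2
      ring
    · rw [indicator_of_notMem h, indicator_of_notMem h, smul_zero]
  simp only [h1]
  rw [setIntegral_indicator measurableSet_Ioi]
  congr 2
  ext t
  simp only [mem_inter_iff, mem_Ioi]
  constructor
  · exact fun h => h.2
  · exact fun h => ⟨by linarith, h⟩

theorem cont_diff {f : ℕ → ℂ} {r C : ℝ} (hr : 0 ≤ r) (hC0 : 0 ≤ C)
    (hC : ∀ n : ℕ, ‖∑ k ∈ Finset.Icc 1 n, f k‖ ≤ C * (n : ℝ) ^ r) {s : ℂ} (hs : r < s.re) :
    DifferentiableAt ℂ (cont f) s := by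
  have hloc : LocallyIntegrable ((Ioi (1 : ℝ)).indicator (psum f)) := by
    have hcont : Continuous fun t : ℝ => C * |t| ^ r :=
      continuous_const.mul (continuous_abs.rpow_const fun _ => Or.inr hr)
    refine hcont.locallyIntegrable.mono
      ((psum_meas f).indicator measurableSet_Ioi).aestronglyMeasurable (ae_of_all _ fun t => ?_)
    rw [Real.norm_of_nonneg (by positivity)]
    by_cases h : t ∈ Ioi (1 : ℝ)
    · rw [indicator_of_mem h]
      have h0 : 0 ≤ t := by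
        have : (1 : ℝ) < t := h
        linarith
      rw [abs_of_nonneg h0]
      exact psum_le hr hC0 hC h0
    · rw [indicator_of_notMem h, norm_zero]
      positivity
  have hm : DifferentiableAt ℂ (mellin ((Ioi (1 : ℝ)).indicator (psum f))) (-s) := by
    refine mellin_differentiableAt_of_isBigO_rpow (a := -r) (b := (-s).re - 1)
      (hloc.locallyIntegrableOn _) ?_ ?_ ?_ (by linarith)
    · rw [neg_neg]
      refine Asymptotics.IsBigO.of_bound C ?_
      filter_upwards [eventually_gt_atTop 1] with t ht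
      rw [indicator_of_mem (mem_Ioi.2 ht), Real.norm_of_nonneg (by positivity)]
      exact psum_le hr hC0 hC (by linarith)
    · rw [neg_re]
      linarith
    · refine Asymptotics.IsBigO.of_bound 0 ?_
      filter_upwards [Ioo_mem_nhdsGT (show (0 : ℝ) < 1 by norm_num)] with t ht
      rw [indicator_of_notMem (by
        rw [mem_Ioi, not_lt]
        exact ht.2.le), norm_zero, zero_mul]
  have h2 : cont f = fun s => s * mellin ((Ioi (1 : ℝ)).indicator (psum f)) (-s) := by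
    funext s
    rw [mellin_eq]
    rfl
  rw [h2]
  exact differentiableAt_id.mul (hm.comp s differentiableAt_id.neg)

theorem cont_le {f : ℕ → ℂ} {r C : ℝ} (hr : 0 ≤ r) (hC0 : 0 ≤ C)
    (hC : ∀ n : ℕ, ‖∑ k ∈ Finset.Icc 1 n, f k‖ ≤ C * (n : ℝ) ^ r) {s : ℂ} (hs : r < s.re) :
    ‖cont f s‖ ≤ ‖s‖ * (C / (s.re - r)) := by
  unfold cont
  rw [norm_mul]
  refine mul_le_mul_of_nonneg_left ?_ (norm_nonneg _)
  have hi : IntegrableOn (fun t : ℝ => C * t ^ (r - (s.re + 1))) (Ioi 1) :=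
    (integrableOn_Ioi_rpow_of_lt (by linarith) one_pos).const_mul C
  refine (norm_integral_le_of_norm_le hi ?_).trans (le_of_eq ?_)
  · rw [ae_restrict_iff' measurableSet_Ioi]
    refine ae_of_all _ fun t ht => ?_
    have ht1 : (1 : ℝ) < t := ht
    have ht0 : 0 < t := by linarith
    rw [norm_mul, Complex.norm_cpow_eq_rpow_re_of_pos ht0]
    have h1 : (-(s + 1)).re = -(s.re + 1) := by simp
    rw [h1]
    calc _ ≤ (C * t ^ r) * t ^ (-(s.re + 1)) :=
          mul_le_mul_of_nonneg_right (psum_le hr hC0 hC ht0.le) (by positivity)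
      _ = C * t ^ (r - (s.re + 1)) := by
          rw [mul_assoc, ← Real.rpow_add ht0]
          congr 2
  · rw [integral_const_mul, integral_Ioi_rpow_of_lt (by linarith) one_pos, Real.one_rpow]
    have : s.re - r ≠ 0 := by linarith
    have h2 : r - (s.re + 1) + 1 = -(s.re - r) := by ring
    rw [h2, neg_div_neg_eq, div_eq_mul_one_div]
    ring

theorem cont_eq {f : ℕ → ℂ} {r C : ℝ} (hr : 0 ≤ r) (hC0 : 0 ≤ C)
    (hC : ∀ n : ℕ, ‖∑ k ∈ Finset.Icc 1 n, f k‖ ≤ C * (n : ℝ) ^ r) {s : ℂ} (hs : r < s.re)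
    (hS : LSeriesSummable f s) : LSeries f s = cont f s := by
  refine LSeries_eq_mul_integral f hr hs hS ?_
  refine Asymptotics.IsBigO.of_bound C (Eventually.of_forall fun n => ?_)
  rw [Real.norm_of_nonneg (by positivity)]
  exact hC n

/-! ### characters -/

theorem sum_block {q : ℕ} [NeZero q] {χ : DirichletCharacter ℂ q} (hχ : χ ≠ 1) (m : ℕ) :
    ∑ k ∈ Finset.range q, χ ((m + k : ℕ) : ZMod q) = 0 := by
  have h1 : ∑ a : ZMod q, χ ((m : ZMod q) + a) = 0 := by
    rw [← MulChar.sum_eq_zero_of_ne_one hχ]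
    exact Fintype.sum_equiv (Equiv.addLeft (m : ZMod q)) _ _ fun _ => rfl
  rw [← h1]
  refine Finset.sum_nbij' (fun k => (k : ZMod q)) (fun a => a.val) (fun _ _ => Finset.mem_univ _)
    (fun a _ => Finset.mem_range.2 (ZMod.val_lt a)) (fun k hk => ?_) (fun a _ => ?_) fun k _ => ?_
  · exact ZMod.val_cast_of_lt (Finset.mem_range.1 hk)
  · exact ZMod.natCast_zmod_val a
  · push_cast
    rfl

theorem partial_le {q : ℕ} [NeZero q] {χ : DirichletCharacter ℂ q} (hχ : χ ≠ 1) (n : ℕ) :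
    ‖∑ k ∈ Finset.Icc 1 n, χ (k : ZMod q)‖ ≤ q := by
  have e : ∀ n : ℕ, ∑ k ∈ Finset.Icc 1 n, χ ((k : ℕ) : ZMod q) =
      ∑ k ∈ Finset.range n, χ ((1 + k : ℕ) : ZMod q) := by
    intro n
    rw [Finset.range_eq_Ico, Finset.sum_Ico_add (fun k => χ ((k : ℕ) : ZMod q)) 0 n 1]
    refine Finset.sum_congr ?_ fun _ _ => rfl
    ext k
    simp only [Finset.mem_Icc, Finset.mem_Ico]
    omega
  rw [e]
  induction n using Nat.strong_induction_on with
  | _ n ih =>
    rcases lt_or_ge n q with h | h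
    · have h1 : ∀ k ∈ Finset.range n, ‖χ ((1 + k : ℕ) : ZMod q)‖ ≤ 1 := fun k _ => χ.norm_le_one _
      refine (norm_sum_le_of_le _ h1).trans ?_
      rw [Finset.sum_const, Finset.card_range, nsmul_eq_mul, mul_one]
      exact_mod_cast h.le
    · obtain ⟨m, rfl⟩ := Nat.exists_eq_add_of_le' h
      have hq := Nat.pos_of_ne_zero (NeZero.ne q)
      rw [Finset.sum_range_add]
      have h2 : ∑ k ∈ Finset.range q, χ ((1 + (m + k) : ℕ) : ZMod q) = 0 := by
        have := sum_block hχ (1 + m)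
        simpa only [add_assoc] using this
      rw [h2, add_zero]
      exact ih m (by omega)

theorem LFunction_eq_cont {q : ℕ} [NeZero q] {χ : DirichletCharacter ℂ q} (hχ : χ ≠ 1) {s : ℂ}
    (hs : 0 < s.re) : DirichletCharacter.LFunction χ s = cont (fun n => χ n) s := by
  have hC : ∀ n : ℕ, ‖∑ k ∈ Finset.Icc 1 n, (fun n : ℕ => χ (n : ZMod q)) k‖ ≤
      (q : ℝ) * (n : ℝ) ^ (0 : ℝ) := fun n => by
    rw [Real.rpow_zero, mul_one]
    exact partial_le hχ n
  have ho : IsOpen {z : ℂ | 0 < z.re} := isOpen_lt continuous_const Complex.continuous_re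
  have h1 : AnalyticOnNhd ℂ (DirichletCharacter.LFunction χ) {z : ℂ | 0 < z.re} :=
    (DirichletCharacter.differentiable_LFunction hχ).differentiableOn.analyticOnNhd ho
  have h2 : AnalyticOnNhd ℂ (cont fun n => χ n) {z : ℂ | 0 < z.re} :=
    DifferentiableOn.analyticOnNhd (fun z hz =>
      (cont_diff le_rfl (Nat.cast_nonneg q) hC hz).differentiableWithinAt) ho
  have hpre : IsPreconnected {z : ℂ | 0 < z.re} := (convex_halfSpace_re_gt 0).isPreconnected
  refine h1.eqOn_of_preconnected_of_eventuallyEq h2 hpre (z₀ := 2) (by simp) ?_ hs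
  have ho1 : IsOpen {z : ℂ | 1 < z.re} := isOpen_lt continuous_const Complex.continuous_re
  filter_upwards [ho1.mem_nhds (show (2 : ℂ) ∈ {z : ℂ | 1 < z.re} by simp)] with z hz
  have hz' : 1 < z.re := hz
  rw [DirichletCharacter.LFunction_eq_LSeries χ hz']
  exact cont_eq le_rfl (Nat.cast_nonneg q) hC (by linarith)
    (DirichletCharacter.LSeriesSummable_of_one_lt_re χ hz')

/-- **growth** -/
theorem LFunction_le {q : ℕ} [NeZero q] {χ : DirichletCharacter ℂ q} (hχ : χ ≠ 1) {s : ℂ}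
    (hs : 1 / 2 ≤ s.re) : ‖DirichletCharacter.LFunction χ s‖ ≤ 2 * q * ‖s‖ := by
  have hC : ∀ n : ℕ, ‖∑ k ∈ Finset.Icc 1 n, (fun n : ℕ => χ (n : ZMod q)) k‖ ≤
      (q : ℝ) * (n : ℝ) ^ (0 : ℝ) := fun n => by
    rw [Real.rpow_zero, mul_one]
    exact partial_le hχ n
  rw [LFunction_eq_cont hχ (by linarith)]
  refine (cont_le le_rfl (Nat.cast_nonneg q) hC (by linarith)).trans ?_
  rw [sub_zero, mul_comm (2 * (q : ℝ))]
  refine mul_le_mul_of_nonneg_left ?_ (norm_nonneg _)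
  rw [div_le_iff₀ (by linarith)]
  have : (0 : ℝ) ≤ q := Nat.cast_nonneg q
  nlinarith

end Pool.Agent.H564.SC
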