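import Pool.Agent.H564.SP.Sparse
import Pool.Agent.H564.SP.Lower

/-! The noise of a sparse random sample is large infinitely often, for bounded sequences. -/

set_option autoImplicit false

namespace Pool.Agent.H564.SC

open Finset Filter Topology MeasureTheory ProbabilityTheory
open Pool.Agent.H564.BSD (wt)
open Pool.Agent.H564.SP (Dens noise_lower)

theorem primes_many {e : ℝ} (he : 0 < e) : ∀ᶠ n : ℕ in atTop,
    (n : ℝ) ^ (1 - e) ≤ (((range n).filter Nat.Prime).card : ℝ) := by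
  have h1 : Tendsto (fun n : ℕ => (n : ℝ)) atTop atTop := tendsto_natCast_atTop_atTop
  have h2 := h1.eventually ((isLittleO_log_rpow_atTop (show 0 < e / 2 by positivity)).bound
    (show (0 : ℝ) < 1 by norm_num))
  have h3 := h1.eventually ((tendsto_rpow_atTop (show 0 < e / 2 by positivity)).eventually_ge_atTop 8)
  filter_upwards [h2, h3, eventually_ge_atTop 64] with n h2 h3 h4
  have hn : (64 : ℝ) ≤ n := by exact_mod_cast h4
  have hn0 : (0 : ℝ) < n := by linarith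
  have hlog : 0 < Real.log n := Real.log_pos (by linarith)
  rw [Real.norm_of_nonneg hlog.le, one_mul, Real.norm_of_nonneg (by positivity)] at h2
  have h5 := Chebyshev.pi_ge n
  have h6 : (Nat.primeCounting n : ℝ) ≤ (((range n).filter Nat.Prime).card : ℝ) + 1 := by
    have e1 : Nat.primeCounting n = ((range (n + 1)).filter Nat.Prime).card := by
      rw [Nat.primeCounting, Nat.primeCounting', Nat.count_eq_card_filter_range]
    have e2 : ((range (n + 1)).filter Nat.Prime).card ≤ ((range n).filter Nat.Prime).card + 1 := by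
      rw [range_add_one, filter_insert]
      split_ifs
      · exact card_insert_le _ _
      · exact Nat.le_succ _
    rw [e1]
    exact_mod_cast e2
  have hl2 : (0.6931471803 : ℝ) < Real.log 2 := Real.log_two_gt_d9
  have h7 : Real.log ((n : ℝ) + 1) ≤ (n : ℝ) / 8 := by
    have a1 : Real.log ((n : ℝ) + 1) ≤ Real.log (2 * n) := Real.log_le_log (by linarith) (by linarith)
    rw [Real.log_mul (by norm_num) hn0.ne'] at a1
    have a2 : Real.log n = 4 * Real.log ((n : ℝ) ^ (1 / 4 : ℝ)) := by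
      rw [Real.log_rpow hn0]; ring
    have a3 : Real.log 2 < 0.6931471808 := Real.log_two_lt_d9
    -- log n ≤ n / 16 + log 16 - 1
    have a4 := Real.log_le_sub_one_of_pos (show 0 < (n : ℝ) / 16 by positivity)
    rw [Real.log_div hn0.ne' (by norm_num)] at a4
    have a5 : Real.log 16 = 4 * Real.log 2 := by
      rw [show (16 : ℝ) = 2 ^ 4 by norm_num, Real.log_pow]
      norm_num
    rw [a5] at a4
    nlinarith
  have h8 : (n : ℝ) / 2 ≤ (n : ℝ) * Real.log 2 - Real.log ((n : ℝ) + 1) := by nlinarith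
  have h9 : (n : ℝ) / 2 / Real.log n ≤ (((range n).filter Nat.Prime).card : ℝ) + 1 :=
    ((div_le_div_of_nonneg_right h8 hlog.le).trans h5).trans h6
  have h10 : (n : ℝ) / 2 / (n : ℝ) ^ (e / 2) ≤ (n : ℝ) / 2 / Real.log n :=
    div_le_div_of_nonneg_left (by positivity) hlog h2
  have e3 : (n : ℝ) / 2 / (n : ℝ) ^ (e / 2) = (n : ℝ) ^ (1 - e) * (n : ℝ) ^ (e / 2) / 2 := by
    have : (n : ℝ) = (n : ℝ) ^ (1 - e) * (n : ℝ) ^ (e / 2) * (n : ℝ) ^ (e / 2) := by
      rw [← Real.rpow_add hn0, ← Real.rpow_add hn0]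
      ring_nf
      rw [Real.rpow_one]
    have hp : 0 < (n : ℝ) ^ (e / 2) := by positivity
    rw [div_div, div_eq_div_iff (by positivity) (by norm_num)]
    nlinarith
  have h11 : (n : ℝ) ^ (1 - e) * 8 / 2 ≤ (n : ℝ) / 2 / (n : ℝ) ^ (e / 2) := by
    rw [e3]
    have : 0 ≤ (n : ℝ) ^ (1 - e) := by positivity
    nlinarith
  have h12 : (n : ℝ) ^ (1 - e) * 4 ≤ (((range n).filter Nat.Prime).card : ℝ) + 1 := by linarith
  have h13 : (1 : ℝ) ≤ (((range n).filter Nat.Prime).card : ℝ) := by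
    have : 0 < ((range n).filter Nat.Prime).card :=
      card_pos.2 ⟨2, by rw [mem_filter, mem_range]; exact ⟨by omega, Nat.prime_two⟩⟩
    exact_mod_cast this
  linarith

variable {Ω : Type*} [mΩ : MeasurableSpace Ω] {μ : Measure Ω} [IsProbabilityMeasure μ]
  {A : ℕ → Set Ω} {δ : ℕ → ℝ} {η : ℝ}

theorem core (hA : ∀ p, MeasurableSet (A p)) (hind : iIndepSet A μ)
    (hδ0 : ∀ p, 0 < δ p) (hδ1 : ∀ p, δ p ≤ 1) (hμ : ∀ p, μ (A p) = ENNReal.ofReal (δ p))
    (hη : 0 < η) (hd : Dens δ η) {v : ℕ → ℝ} (hv : ∀ i, |v i| ≤ 1)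
    (hvp : ∀ i, ¬ i.Prime → v i = 0) {a : ℕ → ℝ} {e : ℝ} (he : 0 < e) (he1 : 16 * e ≤ 1 - 2 * η)
    (heη : e ≤ η)
    (h : ∃ᶠ n : ℕ in atTop, (n : ℝ) ^ (1 - e) / 2 ≤ ∑ i ∈ range n, v i ^ 2 ∧ 0 ≤ a n) :
    ∀ᵐ ω ∂μ, ∃ᶠ n : ℕ in atTop, 1 / 2 * (n : ℝ) ^ (1 / 2 + η - 3 * e) ≤
      a n + ∑ i ∈ range n, (wt A δ ω i - 1) * v i := by
  obtain ⟨m, hm, hmP⟩ := exists_seq_forall_of_frequently h
  have hmR : Tendsto (fun j => (m j : ℝ)) atTop atTop := tendsto_natCast_atTop_atTop.comp hm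
  obtain ⟨C, hC0, hC⟩ := hd.inv_le hδ0 hη.le he
  obtain ⟨N, hN⟩ := eventually_atTop.1 (hd e he)
  have hη2 : η < 1 / 2 := by linarith
  have hvar : ∀ᶠ j in atTop, 100 * (m j : ℝ) ^ (1 + 2 * η - 6 * e) ≤
      ∑ i ∈ range (m j), v i ^ 2 * (1 / δ i - 1) := by
    have hg1 : 0 < (1 - 3 * e) * (2 * η - e) := by
      have : 0 < 1 - 3 * e := by linarith
      have : 0 < 2 * η - e := by linarith
      positivity
    filter_upwards [(tendsto_rpow_atTop (show 0 < 1 - 3 * e by linarith)).comp hmR |>.eventually_ge_atTop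
        (N + 2 : ℝ), ((tendsto_rpow_atTop hg1).comp hmR).eventually_ge_atTop 2,
      ((tendsto_rpow_atTop he).comp hmR).eventually_ge_atTop 800,
      hmR.eventually_ge_atTop 16] with j h1 h2 h3 h4
    simp only [Function.comp_apply] at h1 h2 h3
    have hn0 : (0 : ℝ) < m j := by linarith
    have hn1 : (1 : ℝ) ≤ m j := by linarith
    have hterm : ∀ i ∈ range (m j), (m j : ℝ) ^ (1 - 3 * e) ≤ i →
        v i ^ 2 * (1 / 2 * (m j : ℝ) ^ ((1 - 3 * e) * (2 * η - e))) ≤ v i ^ 2 * (1 / δ i - 1) := by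
      intro i hi hi2
      by_cases hp : i.Prime
      swap
      · rw [hvp i hp]; norm_num
      have hi0 : (0 : ℝ) < i := by exact_mod_cast hp.pos
      have hNi : N ≤ i := by
        have : (N : ℝ) ≤ i := by linarith
        exact_mod_cast this
      have h8 := (hN i hNi hp).2
      have h9 : (m j : ℝ) ^ ((1 - 3 * e) * (2 * η - e)) ≤ 1 / δ i := by
        rw [le_div_iff₀ (hδ0 i)]
        have h10 : (m j : ℝ) ^ ((1 - 3 * e) * (2 * η - e)) ≤ (i : ℝ) ^ (2 * η - e) := by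
          rw [Real.rpow_mul hn0.le]
          exact Real.rpow_le_rpow (by positivity) hi2 (by linarith)
        calc (m j : ℝ) ^ ((1 - 3 * e) * (2 * η - e)) * δ i
            ≤ (i : ℝ) ^ (2 * η - e) * (i : ℝ) ^ (-(2 * η) + e) :=
              mul_le_mul h10 h8 (hδ0 i).le (by positivity)
          _ = 1 := by
              rw [← Real.rpow_add hi0, show 2 * η - e + (-(2 * η) + e) = 0 by ring,
                Real.rpow_zero]
      exact mul_le_mul_of_nonneg_left (by linarith) (sq_nonneg _)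
    have hterm0 : ∀ i ∈ range (m j), 0 ≤ v i ^ 2 * (1 / δ i - 1) := by
      intro i _
      refine mul_nonneg (sq_nonneg _) ?_
      have h5 : 1 ≤ 1 / δ i := by rw [le_div_iff₀ (hδ0 i)]; linarith [hδ1 i]
      linarith
    set s₁ := (range (m j)).filter fun i : ℕ => (m j : ℝ) ^ (1 - 3 * e) ≤ i with hs₁
    have h5 : ∑ i ∈ range (m j), v i ^ 2 ≤ ∑ i ∈ s₁, v i ^ 2 + ((m j : ℝ) ^ (1 - 3 * e) + 1) := by
      rw [← sum_filter_add_sum_filter_not (range (m j)) (fun i : ℕ => (m j : ℝ) ^ (1 - 3 * e) ≤ i)]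
      refine add_le_add le_rfl ?_
      have h6 : ∀ i ∈ (range (m j)).filter (fun i : ℕ => ¬ (m j : ℝ) ^ (1 - 3 * e) ≤ i),
          v i ^ 2 ≤ 1 := by
        intro i _
        rw [← sq_abs]
        exact pow_le_one₀ (abs_nonneg _) (hv i)
      refine (sum_le_card_nsmul _ _ _ h6).trans ?_
      rw [nsmul_eq_mul, mul_one]
      have h7 : (range (m j)).filter (fun i : ℕ => ¬ (m j : ℝ) ^ (1 - 3 * e) ≤ i) ⊆
          range (⌊(m j : ℝ) ^ (1 - 3 * e)⌋₊ + 1) := by
        intro i hi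
        rw [mem_filter, not_le] at hi
        rw [mem_range]
        exact Nat.lt_succ_iff.2 (Nat.le_floor hi.2.le)
      have h8 := card_le_card h7
      rw [card_range] at h8
      have h9 : (((range (m j)).filter (fun i : ℕ => ¬ (m j : ℝ) ^ (1 - 3 * e) ≤ i)).card : ℝ) ≤
          ((⌊(m j : ℝ) ^ (1 - 3 * e)⌋₊ + 1 : ℕ) : ℝ) := by exact_mod_cast h8
      push_cast at h9
      linarith [Nat.floor_le (show 0 ≤ (m j : ℝ) ^ (1 - 3 * e) by positivity)]
    have h6 : (m j : ℝ) ^ (1 - 3 * e) + 1 ≤ (m j : ℝ) ^ (1 - e) / 4 := by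
      have a1 : (m j : ℝ) ^ (1 - e) = (m j : ℝ) ^ (1 - 3 * e) * ((m j : ℝ) ^ e * (m j : ℝ) ^ e) := by
        rw [← Real.rpow_add hn0, ← Real.rpow_add hn0]
        congr 1
        ring
      have a2 : 1 ≤ (m j : ℝ) ^ (1 - 3 * e) := Real.one_le_rpow hn1 (by linarith)
      have a3 : 8 ≤ (m j : ℝ) ^ e * (m j : ℝ) ^ e := by nlinarith
      have a4 : (m j : ℝ) ^ (1 - 3 * e) * 8 ≤
          (m j : ℝ) ^ (1 - 3 * e) * ((m j : ℝ) ^ e * (m j : ℝ) ^ e) :=
        mul_le_mul_of_nonneg_left a3 (by linarith)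
      rw [a1]
      linarith
    have h7 : (m j : ℝ) ^ (1 - e) / 4 ≤ ∑ i ∈ s₁, v i ^ 2 := by
      have := (hmP j).1
      linarith
    calc 100 * (m j : ℝ) ^ (1 + 2 * η - 6 * e)
        ≤ ((m j : ℝ) ^ e / 8) * (m j : ℝ) ^ (1 + 2 * η - 6 * e) :=
          mul_le_mul_of_nonneg_right (by linarith) (by positivity)
      _ = 1 / 8 * (m j : ℝ) ^ (1 + 2 * η - 5 * e) := by
          have : (m j : ℝ) ^ (1 + 2 * η - 5 * e) = (m j : ℝ) ^ e * (m j : ℝ) ^ (1 + 2 * η - 6 * e) := by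
            rw [← Real.rpow_add hn0]
            congr 1
            ring
          rw [this]
          ring
      _ ≤ 1 / 8 * (m j : ℝ) ^ ((1 - e) + (1 - 3 * e) * (2 * η - e)) := by
          refine mul_le_mul_of_nonneg_left ?_ (by norm_num)
          refine Real.rpow_le_rpow_of_exponent_le hn1 ?_
          nlinarith
      _ = ((m j : ℝ) ^ (1 - e) / 4) * (1 / 2 * (m j : ℝ) ^ ((1 - 3 * e) * (2 * η - e))) := by
          rw [Real.rpow_add hn0]
          ring
      _ ≤ (∑ i ∈ s₁, v i ^ 2) * (1 / 2 * (m j : ℝ) ^ ((1 - 3 * e) * (2 * η - e))) :=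
          mul_le_mul_of_nonneg_right h7 (by positivity)
      _ = ∑ i ∈ s₁, v i ^ 2 * (1 / 2 * (m j : ℝ) ^ ((1 - 3 * e) * (2 * η - e))) := by
          rw [sum_mul]
      _ ≤ ∑ i ∈ s₁, v i ^ 2 * (1 / δ i - 1) := by
          refine sum_le_sum fun i hi => ?_
          rw [hs₁, mem_filter] at hi
          exact hterm i hi.1 hi.2
      _ ≤ _ := sum_le_sum_of_subset_of_nonneg (filter_subset _ _) fun i hi _ => hterm0 i hi
  have hfour : ∀ᶠ j in atTop, ∑ i ∈ range (m j), v i ^ 4 / δ i ^ 3 ≤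
      (100 * (m j : ℝ) ^ (1 + 2 * η - 6 * e)) ^ 2 := by
    have hg : 0 < 1 - 2 * η - 15 * e := by linarith
    filter_upwards [((tendsto_rpow_atTop hg).comp hmR).eventually_ge_atTop (C ^ 3),
      hmR.eventually_ge_atTop 1] with j h1 h2
    simp only [Function.comp_apply] at h1
    have hn0 : (0 : ℝ) < m j := by linarith
    have hterm : ∀ i ∈ range (m j), v i ^ 4 / δ i ^ 3 ≤ C ^ 3 * (m j : ℝ) ^ (3 * (2 * η + e)) := by
      intro i hi
      rw [mem_range] at hi
      by_cases hp : i.Prime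
      swap
      · rw [hvp i hp]
        have : 0 ≤ C ^ 3 * (m j : ℝ) ^ (3 * (2 * η + e)) := by positivity
        simpa using this
      have h3 : (1 / δ i) ^ 3 ≤ (C * (i : ℝ) ^ (2 * η + e)) ^ 3 :=
        pow_le_pow_left₀ (one_div_pos.2 (hδ0 i)).le (hC i hp) 3
      have h4 : (i : ℝ) ^ (2 * η + e) ≤ (m j : ℝ) ^ (2 * η + e) :=
        Real.rpow_le_rpow (Nat.cast_nonneg i) (by exact_mod_cast hi.le) (by linarith)
      have h5 : v i ^ 4 ≤ 1 := by
        have := pow_le_one₀ (n := 4) (abs_nonneg _) (hv i)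
        rwa [show |v i| ^ 4 = v i ^ 4 by
          rw [show (4 : ℕ) = 2 * 2 by norm_num, pow_mul, pow_mul, sq_abs]] at this
      calc v i ^ 4 / δ i ^ 3 = v i ^ 4 * (1 / δ i) ^ 3 := by rw [one_div, inv_pow, div_eq_mul_inv]
        _ ≤ 1 * (C * (i : ℝ) ^ (2 * η + e)) ^ 3 :=
            mul_le_mul h5 h3 (by have := hδ0 i; positivity) zero_le_one
        _ ≤ (C * (m j : ℝ) ^ (2 * η + e)) ^ 3 := by
            rw [one_mul]
            exact pow_le_pow_left₀ (by positivity) (mul_le_mul_of_nonneg_left h4 hC0.le) 3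
        _ = C ^ 3 * (m j : ℝ) ^ (3 * (2 * η + e)) := by
            rw [mul_pow, ← Real.rpow_natCast ((m j : ℝ) ^ (2 * η + e)) 3, ← Real.rpow_mul hn0.le]
            congr 2
            push_cast
            ring
    refine (sum_le_card_nsmul _ _ _ hterm).trans ?_
    rw [card_range, nsmul_eq_mul]
    calc (m j : ℝ) * (C ^ 3 * (m j : ℝ) ^ (3 * (2 * η + e)))
        = C ^ 3 * ((m j : ℝ) ^ (1 : ℝ) * (m j : ℝ) ^ (3 * (2 * η + e))) := by
          rw [Real.rpow_one]; ring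
      _ = C ^ 3 * (m j : ℝ) ^ (1 + 3 * (2 * η + e)) := by rw [Real.rpow_add hn0]
      _ ≤ (m j : ℝ) ^ (1 - 2 * η - 15 * e) * (m j : ℝ) ^ (1 + 3 * (2 * η + e)) :=
          mul_le_mul_of_nonneg_right h1 (by positivity)
      _ = ((m j : ℝ) ^ (1 + 2 * η - 6 * e)) ^ 2 := by
          rw [← Real.rpow_add hn0, ← Real.rpow_natCast, ← Real.rpow_mul hn0.le]
          congr 1
          push_cast
          ring
      _ ≤ (100 * (m j : ℝ) ^ (1 + 2 * η - 6 * e)) ^ 2 := by
          rw [mul_pow]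
          have : 0 ≤ ((m j : ℝ) ^ (1 + 2 * η - 6 * e)) ^ 2 := by positivity
          linarith
  have hb : Tendsto (fun j => (m j : ℝ) ^ (1 / 2 + η - 3 * e)) atTop atTop :=
    (tendsto_rpow_atTop (by linarith)).comp hmR
  have h1 := noise_lower (μ := μ) (m := m) (c := fun _ i => v i) (C := fun _ => 1) (κ := 1)
    hA hind hδ0 hδ1 hμ (fun _ i => hv i) hb one_pos ?_ ?_
  · filter_upwards [h1] with ω hω
    have h2 := hω (1 / 2) (by norm_num)
    refine hm.frequently (p := fun n : ℕ => 1 / 2 * (n : ℝ) ^ (1 / 2 + η - 3 * e) ≤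
      a n + ∑ i ∈ range n, (wt A δ ω i - 1) * v i) (h2.mono fun j hj => ?_)
    have := (hmP j).2
    linarith
  · filter_upwards [hvar, hmR.eventually_gt_atTop 0] with j h2 h3
    refine le_trans (le_of_eq ?_) h2
    rw [one_pow, mul_one, ← Real.rpow_natCast, ← Real.rpow_mul h3.le]
    congr 2
    push_cast
    ring
  · filter_upwards [hvar, hfour, hmR.eventually_gt_atTop 0] with j h2 h4 h3
    exact h4.trans (pow_le_pow_left₀ (by positivity) h2 2)

/-- **The noise is large**, whatever is added to it. -/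
theorem noise_low (hA : ∀ p, MeasurableSet (A p)) (hind : iIndepSet A μ)
    (hδ0 : ∀ p, 0 < δ p) (hδ1 : ∀ p, δ p ≤ 1) (hμ : ∀ p, μ (A p) = ENNReal.ofReal (δ p))
    (hη : 0 < η) (hη1 : η < 1 / 2) (hd : Dens δ η) {f : ℕ → ℂ} (hf : ∀ p, ‖f p‖ ≤ 1)
    (hf1 : ∀ e : ℝ, 0 < e → ∀ᶠ n : ℕ in atTop, (n : ℝ) ^ (1 - e) ≤
      ∑ p ∈ (range n).filter Nat.Prime, ‖f p‖ ^ 2) (a : ℕ → ℂ) :
    ∀ᵐ ω ∂μ, ∀ ε : ℝ, 0 < ε → ∃ᶠ n : ℕ in atTop, (n : ℝ) ^ (1 / 2 + η - ε) ≤
      ‖a n + ∑ p ∈ (range n).filter Nat.Prime, ((wt A δ ω p : ℂ) - 1) * f p‖ := by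
  have key : ∀ e : ℝ, 0 < e → 16 * e ≤ 1 - 2 * η → e ≤ η → ∀ᵐ ω ∂μ, ∃ᶠ n : ℕ in atTop,
      1 / 2 * (n : ℝ) ^ (1 / 2 + η - 3 * e) ≤
      ‖a n + ∑ p ∈ (range n).filter Nat.Prime, ((wt A δ ω p : ℂ) - 1) * f p‖ := by
    intro e he he1 heη
    set vr : ℕ → ℝ := fun i => if i.Prime then (f i).re else 0 with hvr
    set vi : ℕ → ℝ := fun i => if i.Prime then (f i).im else 0 with hvi
    have hr1 : ∀ i, |vr i| ≤ 1 := by
      intro i
      simp only [hvr]
      split_ifs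
      · exact (Complex.abs_re_le_norm _).trans (hf i)
      · simp
    have hi1 : ∀ i, |vi i| ≤ 1 := by
      intro i
      simp only [hvi]
      split_ifs
      · exact (Complex.abs_im_le_norm _).trans (hf i)
      · simp
    have hsplit : ∀ n : ℕ, ∑ p ∈ (range n).filter Nat.Prime, ‖f p‖ ^ 2 =
        ∑ i ∈ range n, vr i ^ 2 + ∑ i ∈ range n, vi i ^ 2 := by
      intro n
      rw [sum_filter, ← sum_add_distrib]
      refine sum_congr rfl fun i _ => ?_
      simp only [hvr, hvi]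
      split_ifs
      · rw [Complex.sq_norm, Complex.normSq_apply]
        ring
      · ring
    have hcases : ∃ᶠ n : ℕ in atTop,
        (((n : ℝ) ^ (1 - e) / 2 ≤ ∑ i ∈ range n, vr i ^ 2 ∧ 0 ≤ (a n).re) ∨
        ((n : ℝ) ^ (1 - e) / 2 ≤ ∑ i ∈ range n, (-vr i) ^ 2 ∧ 0 ≤ -(a n).re)) ∨
        (((n : ℝ) ^ (1 - e) / 2 ≤ ∑ i ∈ range n, vi i ^ 2 ∧ 0 ≤ (a n).im) ∨
        ((n : ℝ) ^ (1 - e) / 2 ≤ ∑ i ∈ range n, (-vi i) ^ 2 ∧ 0 ≤ -(a n).im)) := by
      refine ((hf1 e he).mono fun n hn => ?_).frequently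
      rw [hsplit n] at hn
      simp only [neg_sq]
      by_cases h1 : (n : ℝ) ^ (1 - e) / 2 ≤ ∑ i ∈ range n, vr i ^ 2
      · left
        rcases le_total 0 (a n).re with h2 | h2
        · exact Or.inl ⟨h1, h2⟩
        · exact Or.inr ⟨h1, by linarith⟩
      · right
        have h3 : (n : ℝ) ^ (1 - e) / 2 ≤ ∑ i ∈ range n, vi i ^ 2 := by
          push Not at h1
          linarith
        rcases le_total 0 (a n).im with h2 | h2
        · exact Or.inl ⟨h3, h2⟩
        · exact Or.inr ⟨h3, by linarith⟩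
    have hre : ∀ (ω : Ω) (n : ℕ), (a n + ∑ p ∈ (range n).filter Nat.Prime,
        ((wt A δ ω p : ℂ) - 1) * f p).re = (a n).re + ∑ i ∈ range n, (wt A δ ω i - 1) * vr i := by
      intro ω n
      rw [Complex.add_re, Complex.re_sum, sum_filter]
      congr 1
      refine sum_congr rfl fun i _ => ?_
      simp only [hvr]
      split_ifs
      · rw [← Complex.ofReal_one, ← Complex.ofReal_sub, Complex.re_ofReal_mul]
      · rw [mul_zero]
    have him : ∀ (ω : Ω) (n : ℕ), (a n + ∑ p ∈ (range n).filter Nat.Prime,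
        ((wt A δ ω p : ℂ) - 1) * f p).im = (a n).im + ∑ i ∈ range n, (wt A δ ω i - 1) * vi i := by
      intro ω n
      rw [Complex.add_im, Complex.im_sum, sum_filter]
      congr 1
      refine sum_congr rfl fun i _ => ?_
      simp only [hvi]
      split_ifs
      · rw [← Complex.ofReal_one, ← Complex.ofReal_sub, Complex.im_ofReal_mul]
      · rw [mul_zero]
    have hneg : ∀ (ω : Ω) (n : ℕ) (v : ℕ → ℝ), ∑ i ∈ range n, (wt A δ ω i - 1) * (-v i) =
        -∑ i ∈ range n, (wt A δ ω i - 1) * v i := by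
      intro ω n v
      rw [← sum_neg_distrib]
      exact sum_congr rfl fun i _ => by ring
    have hp0r : ∀ i, ¬ i.Prime → vr i = 0 := fun i hi => by simp only [hvr]; rw [if_neg hi]
    have hp0i : ∀ i, ¬ i.Prime → vi i = 0 := fun i hi => by simp only [hvi]; rw [if_neg hi]
    rw [frequently_or_distrib, frequently_or_distrib, frequently_or_distrib] at hcases
    rcases hcases with (h | h) | (h | h)
    · filter_upwards [core (μ := μ) hA hind hδ0 hδ1 hμ hη hd hr1 hp0r (a := fun n => (a n).re)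
        he he1 heη h] with ω hω
      refine hω.mono fun n hn => hn.trans ?_
      rw [← hre ω n]
      exact (le_abs_self _).trans (Complex.abs_re_le_norm _)
    · filter_upwards [core (μ := μ) hA hind hδ0 hδ1 hμ hη hd (v := fun i => -vr i)
        (fun i => by rw [abs_neg]; exact hr1 i) (fun i hi => by rw [hp0r i hi, neg_zero])
        (a := fun n => -(a n).re) he he1 heη h] with ω hω
      refine hω.mono fun n hn => hn.trans ?_
      rw [hneg ω n vr, ← neg_add, ← hre ω n]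
      exact (neg_le_abs _).trans (Complex.abs_re_le_norm _)
    · filter_upwards [core (μ := μ) hA hind hδ0 hδ1 hμ hη hd hi1 hp0i (a := fun n => (a n).im)
        he he1 heη h] with ω hω
      refine hω.mono fun n hn => hn.trans ?_
      rw [← him ω n]
      exact (le_abs_self _).trans (Complex.abs_im_le_norm _)
    · filter_upwards [core (μ := μ) hA hind hδ0 hδ1 hμ hη hd (v := fun i => -vi i)
        (fun i => by rw [abs_neg]; exact hi1 i) (fun i hi => by rw [hp0i i hi, neg_zero])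
        (a := fun n => -(a n).im) he he1 heη h] with ω hω
      refine hω.mono fun n hn => hn.trans ?_
      rw [hneg ω n vi, ← neg_add, ← him ω n]
      exact (neg_le_abs _).trans (Complex.abs_im_le_norm _)
  set e₀ : ℝ := min η ((1 - 2 * η) / 16) with he₀
  have he₀0 : 0 < e₀ := lt_min hη (by linarith)
  have he₀η : e₀ ≤ η := min_le_left _ _
  have he₀1 : e₀ ≤ (1 - 2 * η) / 16 := min_le_right _ _
  have key2 : ∀ᵐ ω ∂μ, ∀ k : ℕ, ∃ᶠ n : ℕ in atTop,
      1 / 2 * (n : ℝ) ^ (1 / 2 + η - 3 * (e₀ / ((k : ℝ) + 1))) ≤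
      ‖a n + ∑ p ∈ (range n).filter Nat.Prime, ((wt A δ ω p : ℂ) - 1) * f p‖ := by
    rw [ae_all_iff]
    intro k
    have hk : e₀ / ((k : ℝ) + 1) ≤ e₀ :=
      div_le_self he₀0.le (by linarith [Nat.cast_nonneg (α := ℝ) k])
    exact key _ (by positivity) (by linarith) (by linarith)
  filter_upwards [key2] with ω hω ε hε
  obtain ⟨k, hk⟩ := exists_nat_one_div_lt (show 0 < ε / (6 * e₀) by positivity)
  have h1 : e₀ / ((k : ℝ) + 1) < ε / 6 := by
    have h2 : 1 / ((k : ℝ) + 1) * e₀ < ε / (6 * e₀) * e₀ := mul_lt_mul_of_pos_right hk he₀0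
    have e1 : ε / (6 * e₀) * e₀ = ε / 6 := by field_simp
    rw [e1] at h2
    have e2 : e₀ / ((k : ℝ) + 1) = 1 / ((k : ℝ) + 1) * e₀ := by ring
    rwa [e2]
  have hlarge : ∀ᶠ n : ℕ in atTop, (n : ℝ) ^ (1 / 2 + η - ε) ≤
      1 / 2 * (n : ℝ) ^ (1 / 2 + η - 3 * (e₀ / ((k : ℝ) + 1))) := by
    have t1 : Tendsto (fun n : ℕ => (n : ℝ) ^ (ε - 3 * (e₀ / ((k : ℝ) + 1)))) atTop atTop :=
      (tendsto_rpow_atTop (by linarith)).comp tendsto_natCast_atTop_atTop
    filter_upwards [t1.eventually_ge_atTop 2, eventually_gt_atTop 0] with n h2 h3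
    have hn0 : (0 : ℝ) < n := by exact_mod_cast h3
    have e1 : (n : ℝ) ^ (1 / 2 + η - 3 * (e₀ / ((k : ℝ) + 1))) =
        (n : ℝ) ^ (1 / 2 + η - ε) * (n : ℝ) ^ (ε - 3 * (e₀ / ((k : ℝ) + 1))) := by
      rw [← Real.rpow_add hn0]
      congr 1
      ring
    rw [e1]
    have : 0 ≤ (n : ℝ) ^ (1 / 2 + η - ε) := by positivity
    nlinarith
  exact ((hω k).and_eventually hlarge).mono fun n hn => hn.2.trans hn.1

end Pool.Agent.H564.SC
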