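import Mathlib

/-! Optimality: weights on few primes cannot give square root cancellation for all characters. -/

set_option autoImplicit false

namespace Pool.Agent.H564.SC

open Finset Filter Topology Complex

/-- `∑_{p ≤ x} w(p) χ(p)` over the primes `p ≤ x` -/
noncomputable def charSum {q : ℕ} (w : ℕ → ℂ) (χ : DirichletCharacter ℂ q) (x : ℝ) : ℂ :=
  ∑ p ∈ (range (⌊x⌋₊ + 1)).filter Nat.Prime, w p * χ p

/-- orthogonality, for a prime modulus larger than all the primes of the sum -/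
theorem orth {q : ℕ} [NeZero q] (hq : q.Prime) (s : Finset ℕ) (hs : ∀ p ∈ s, 0 < p ∧ p < q)
    (w : ℕ → ℂ) :
    ∑ χ : DirichletCharacter ℂ q, ‖∑ p ∈ s, w p * χ p‖ ^ 2 = ((q : ℝ) - 1) * ∑ p ∈ s, ‖w p‖ ^ 2 := by
  have hu : ∀ p ∈ s, IsUnit ((p : ℕ) : ZMod q) := by
    intro p hp
    rw [ZMod.isUnit_iff_coprime]
    exact (Nat.coprime_of_lt_prime (hs p hp).1.ne' (hs p hp).2 hq).symm
  have hinj : ∀ p ∈ s, ∀ p' ∈ s, ((p' : ℕ) : ZMod q) = ((p : ℕ) : ZMod q) ↔ p' = p := by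
    intro p hp p' hp'
    rw [ZMod.natCast_eq_natCast_iff]
    constructor
    · intro h
      exact Nat.ModEq.eq_of_lt_of_lt h (hs p' hp').2 (hs p hp).2
    · rintro rfl
      rfl
  have hC : ((∑ χ : DirichletCharacter ℂ q, ‖∑ p ∈ s, w p * χ p‖ ^ 2 : ℝ) : ℂ) =
      (((q : ℝ) - 1) * ∑ p ∈ s, ‖w p‖ ^ 2 : ℝ) := by
    push_cast
    have e1 : ∀ χ : DirichletCharacter ℂ q, ((‖∑ p ∈ s, w p * χ p‖ : ℂ)) ^ 2 =
        ∑ p ∈ s, ∑ p' ∈ s, (w p * (starRingEnd ℂ) (w p')) *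
          (χ ((p' : ZMod q)⁻¹) * χ (p : ZMod q)) := by
      intro χ
      rw [← Complex.mul_conj', map_sum, sum_mul_sum]
      refine sum_congr rfl fun p _ => sum_congr rfl fun p' hp' => ?_
      have e2 : (starRingEnd ℂ) (χ (p' : ZMod q)) = χ ((p' : ZMod q)⁻¹) := by
        have h1 := MulChar.star_apply' χ (p' : ZMod q)
        have hF : Fact q.Prime := ⟨hq⟩
        have h2 := MulChar.inv_apply' χ (p' : ZMod q)
        rw [← h2, ← h1]
        rfl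
      rw [map_mul, e2]
      ring
    simp only [e1]
    rw [sum_comm]
    have e5 : ∀ p ∈ s, ∑ χ : DirichletCharacter ℂ q, ∑ p' ∈ s,
        (w p * (starRingEnd ℂ) (w p')) * (χ ((p' : ZMod q)⁻¹) * χ (p : ZMod q)) =
        ∑ p' ∈ s, ∑ χ : DirichletCharacter ℂ q,
        (w p * (starRingEnd ℂ) (w p')) * (χ ((p' : ZMod q)⁻¹) * χ (p : ZMod q)) :=
      fun p _ => sum_comm
    rw [sum_congr rfl e5]
    have e3 : ∀ p ∈ s, ∑ p' ∈ s, ∑ χ : DirichletCharacter ℂ q,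
        (w p * (starRingEnd ℂ) (w p')) * (χ ((p' : ZMod q)⁻¹) * χ (p : ZMod q)) =
        ((q : ℂ) - 1) * (‖w p‖ : ℂ) ^ 2 := by
      intro p hp
      have e4 : ∀ p' ∈ s, ∑ χ : DirichletCharacter ℂ q,
          (w p * (starRingEnd ℂ) (w p')) * (χ ((p' : ZMod q)⁻¹) * χ (p : ZMod q)) =
          if p' = p then (w p * (starRingEnd ℂ) (w p')) * ((q : ℂ) - 1) else 0 := by
        intro p' hp'
        rw [← mul_sum, DirichletCharacter.sum_char_inv_mul_char_eq ℂ (hu p' hp')]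
        simp only [hinj p hp p' hp']
        split_ifs with h
        · rw [Nat.totient_prime hq, Nat.cast_sub hq.one_lt.le, Nat.cast_one]
        · rw [mul_zero]
      rw [sum_congr rfl e4, sum_ite_eq' s p, if_pos hp, Complex.mul_conj']
      ring
    rw [sum_congr rfl e3, ← mul_sum]
  exact_mod_cast hC

/-- the basic inequality -/
theorem basic {q : ℕ} [NeZero q] (hq : q.Prime) (s : Finset ℕ) (hs : ∀ p ∈ s, 0 < p ∧ p < q)
    (w : ℕ → ℂ) {B : ℝ} (hB : ∀ χ : DirichletCharacter ℂ q, χ ≠ 1 → ‖∑ p ∈ s, w p * χ p‖ ≤ B) :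
    ‖∑ p ∈ s, w p‖ ^ 2 * ((q : ℝ) - 1 - ((s.filter fun p => w p ≠ 0).card : ℝ)) ≤
      ((s.filter fun p => w p ≠ 0).card : ℝ) * (q * B ^ 2) := by
  classical
  set k : ℝ := ((s.filter fun p => w p ≠ 0).card : ℝ) with hk
  have hk0 : 0 ≤ k := Nat.cast_nonneg _
  have h1 := orth hq s hs w
  rw [← Finset.add_sum_erase _ _ (mem_univ (1 : DirichletCharacter ℂ q))] at h1
  have h2 : ∑ p ∈ s, w p * (1 : DirichletCharacter ℂ q) p = ∑ p ∈ s, w p := by
    refine sum_congr rfl fun p hp => ?_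
    rw [MulChar.one_apply, mul_one]
    rw [ZMod.isUnit_iff_coprime]
    exact (Nat.coprime_of_lt_prime (hs p hp).1.ne' (hs p hp).2 hq).symm
  rw [h2] at h1
  have hB2 : ∑ χ ∈ (univ : Finset (DirichletCharacter ℂ q)).erase 1, ‖∑ p ∈ s, w p * χ p‖ ^ 2 ≤
      q * B ^ 2 := by
    have h3 : ∀ χ ∈ (univ : Finset (DirichletCharacter ℂ q)).erase 1,
        ‖∑ p ∈ s, w p * χ p‖ ^ 2 ≤ B ^ 2 := by
      intro χ hχ
      exact pow_le_pow_left₀ (norm_nonneg _) (hB χ (ne_of_mem_erase hχ)) 2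
    refine (sum_le_card_nsmul _ _ _ h3).trans ?_
    rw [nsmul_eq_mul]
    refine mul_le_mul_of_nonneg_right ?_ (sq_nonneg _)
    have h4 : ((univ : Finset (DirichletCharacter ℂ q)).erase 1).card ≤ q := by
      refine (card_erase_le).trans ?_
      rw [card_univ, ← Nat.card_eq_fintype_card,
        DirichletCharacter.card_eq_totient_of_hasEnoughRootsOfUnity ℂ q]
      exact Nat.totient_le q
    exact_mod_cast h4
  have h5 : ((q : ℝ) - 1) * ∑ p ∈ s, ‖w p‖ ^ 2 ≤ ‖∑ p ∈ s, w p‖ ^ 2 + q * B ^ 2 := by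
    rw [← h1]
    linarith
  have h6 : ‖∑ p ∈ s, w p‖ ^ 2 ≤ k * ∑ p ∈ s, ‖w p‖ ^ 2 := by
    have e1 : ∑ p ∈ s, w p = ∑ p ∈ s.filter (fun p => w p ≠ 0), w p := by
      rw [sum_filter_ne_zero]
    have e2 : ∑ p ∈ s, ‖w p‖ ^ 2 = ∑ p ∈ s.filter (fun p => w p ≠ 0), ‖w p‖ ^ 2 := by
      rw [sum_filter]
      refine sum_congr rfl fun p _ => ?_
      split_ifs with h
      · rfl
      · rw [not_not] at h
        rw [h]
        simp
    rw [e1, e2]
    have h7 : ‖∑ p ∈ s.filter (fun p => w p ≠ 0), w p‖ ≤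
        ∑ p ∈ s.filter (fun p => w p ≠ 0), ‖w p‖ := norm_sum_le _ _
    refine (pow_le_pow_left₀ (norm_nonneg _) h7 2).trans ?_
    exact sq_sum_le_card_mul_sum_sq
  have hq1 : (1 : ℝ) < q := by exact_mod_cast hq.one_lt
  have h8 : ‖∑ p ∈ s, w p‖ ^ 2 * ((q : ℝ) - 1) ≤ k * (‖∑ p ∈ s, w p‖ ^ 2 + q * B ^ 2) := by
    calc ‖∑ p ∈ s, w p‖ ^ 2 * ((q : ℝ) - 1) ≤ (k * ∑ p ∈ s, ‖w p‖ ^ 2) * ((q : ℝ) - 1) :=
          mul_le_mul_of_nonneg_right h6 (by linarith)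
      _ = k * (((q : ℝ) - 1) * ∑ p ∈ s, ‖w p‖ ^ 2) := by ring
      _ ≤ _ := mul_le_mul_of_nonneg_left h5 hk0
  nlinarith

theorem card_primes_le (n : ℕ) : ((range (n + 1)).filter Nat.Prime).card ≤ n / 2 + 2 := by
  have h1 : (range (n + 1)).filter Nat.Prime ⊆
      {2} ∪ (range (n / 2 + 1)).image (fun k => 2 * k + 1) := by
    intro p hp
    rw [mem_filter, mem_range] at hp
    rw [mem_union, mem_singleton, mem_image]
    rcases hp.2.eq_two_or_odd with h | h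
    · exact Or.inl h
    · right
      exact ⟨p / 2, by rw [mem_range]; omega, by omega⟩
  refine (card_le_card h1).trans ((card_union_le _ _).trans ?_)
  rw [card_singleton]
  have := card_image_le (s := range (n / 2 + 1)) (f := fun k => 2 * k + 1)
  rw [card_range] at this
  omega

/-- **Optimality.** -/
theorem optimal {w : ℕ → ℂ} {y : ℝ} (hw : ∀ ε : ℝ, 0 < ε → ∀ᶠ x : ℝ in atTop,
      x ^ (1 - ε) ≤ ‖∑ p ∈ (range (⌊x⌋₊ + 1)).filter Nat.Prime, w p‖)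
    (hb : ∀ ε : ℝ, 0 < ε → ∃ C : ℝ, ∀ (q : ℕ) [NeZero q] (χ : DirichletCharacter ℂ q), χ ≠ 1 →
      ∀ x : ℝ, 1 ≤ x → ‖charSum w χ x‖ ≤ C * (q : ℝ) ^ ε * x ^ (1 / 2 + y + ε)) :
    ∀ ε : ℝ, 0 < ε → ∀ᶠ x : ℝ in atTop, x ^ (1 - 2 * y - ε) ≤
      (((range (⌊x⌋₊ + 1)).filter fun p => p.Prime ∧ w p ≠ 0).card : ℝ) := by
  intro ε hε
  set e : ℝ := ε / 8 with he
  have he0 : 0 < e := by positivity
  obtain ⟨C, hC⟩ := hb e he0
  set C' : ℝ := |C| + 1 with hC'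
  have hC'0 : 0 < C' := by positivity
  filter_upwards [hw e he0, eventually_ge_atTop 16,
    (tendsto_rpow_atTop (show 0 < 2 * e by positivity)).eventually_ge_atTop
      (32 * C' ^ 2 * (2 : ℝ) ^ (2 * e))] with x h1 hx h2
  have hx0 : 0 < x := by linarith
  set n : ℕ := ⌊x⌋₊ with hn
  have hnx : (n : ℝ) ≤ x := Nat.floor_le hx0.le
  have hxn : x < n + 1 := Nat.lt_floor_add_one x
  have hn16 : 16 ≤ n := Nat.le_floor (by exact_mod_cast hx)
  obtain ⟨q, hq, hq1, hq2⟩ := Nat.exists_prime_lt_and_le_two_mul n (by omega)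
  have : NeZero q := ⟨hq.ne_zero⟩
  set s : Finset ℕ := (range (n + 1)).filter Nat.Prime with hs
  have hsq : ∀ p ∈ s, 0 < p ∧ p < q := by
    intro p hp
    rw [hs, mem_filter, mem_range] at hp
    exact ⟨hp.2.pos, by omega⟩
  set B : ℝ := C' * (q : ℝ) ^ e * x ^ (1 / 2 + y + e) with hB
  have hB0 : 0 < B := by
    have : (0 : ℝ) < q := by exact_mod_cast hq.pos
    positivity
  have hbasic := basic hq s hsq w (B := B) (fun χ hχ => by
    have h3 := hC q χ hχ x (by linarith)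
    refine h3.trans ?_
    rw [hB]
    have : (0 : ℝ) < q := by exact_mod_cast hq.pos
    refine mul_le_mul_of_nonneg_right (mul_le_mul_of_nonneg_right ?_ (by positivity))
      (by positivity)
    rw [hC']
    linarith [le_abs_self C])
  have hcard : (s.filter fun p => w p ≠ 0) = (range (n + 1)).filter fun p => p.Prime ∧ w p ≠ 0 := by
    rw [hs, filter_filter]
  rw [hcard] at hbasic
  set k : ℝ := (((range (n + 1)).filter fun p => p.Prime ∧ w p ≠ 0).card : ℝ) with hk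
  have hk0 : 0 ≤ k := Nat.cast_nonneg _
  have hkn : k ≤ n / 2 + 2 := by
    have h3 : ((range (n + 1)).filter fun p => p.Prime ∧ w p ≠ 0).card ≤ n / 2 + 2 := by
      refine le_trans (card_le_card ?_) (card_primes_le n)
      intro p hp
      rw [mem_filter] at hp ⊢
      exact ⟨hp.1, hp.2.1⟩
    have h4 : (((n / 2 + 2 : ℕ)) : ℝ) ≤ (n : ℝ) / 2 + 2 := by
      push_cast
      have := @Nat.cast_div_le ℝ _ _ _ n 2
      push_cast at this
      linarith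
    exact (Nat.cast_le.2 h3).trans h4
  have hn16' : (16 : ℝ) ≤ n := by exact_mod_cast hn16
  have hqn : (n : ℝ) + 1 ≤ q := by exact_mod_cast hq1
  have hq2n : (q : ℝ) ≤ 2 * n := by exact_mod_cast hq2
  set W : ℝ := ‖∑ p ∈ s, w p‖ with hW
  have hmain : W ^ 2 ≤ 8 * k * B ^ 2 := by
    have h3 : W ^ 2 * ((n : ℝ) / 4) ≤ W ^ 2 * ((q : ℝ) - 1 - k) :=
      mul_le_mul_of_nonneg_left (by linarith) (sq_nonneg _)
    have h4 : k * (q * B ^ 2) ≤ k * (2 * n * B ^ 2) :=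
      mul_le_mul_of_nonneg_left (mul_le_mul_of_nonneg_right hq2n (sq_nonneg _)) hk0
    have h5 : W ^ 2 * ((n : ℝ) / 4) ≤ k * (2 * n * B ^ 2) := h3.trans (hbasic.trans h4)
    have h6 : (0 : ℝ) < n := by linarith
    have h7 : (W ^ 2) * ((n : ℝ) / 4) ≤ (8 * k * B ^ 2) * ((n : ℝ) / 4) := by
      calc _ ≤ _ := h5
        _ = _ := by ring
    exact le_of_mul_le_mul_right h7 (by positivity)
  have hW1 : x ^ (1 - e) ≤ W := h1
  have hq2x : (q : ℝ) ^ e ≤ (2 * x) ^ e :=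
    Real.rpow_le_rpow (by positivity) (by linarith) he0.le
  have hBle : B ≤ C' * ((2 : ℝ) ^ e * x ^ e) * x ^ (1 / 2 + y + e) := by
    rw [hB]
    rw [Real.mul_rpow (by norm_num) hx0.le] at hq2x
    gcongr
  have hB2 : B ^ 2 ≤ C' ^ 2 * (2 : ℝ) ^ (2 * e) * x ^ (1 + 2 * y + 4 * e) := by
    refine (pow_le_pow_left₀ hB0.le hBle 2).trans (le_of_eq ?_)
    have e1 : ((2 : ℝ) ^ e) ^ 2 = (2 : ℝ) ^ (2 * e) := by
      rw [← Real.rpow_natCast, ← Real.rpow_mul (by norm_num)]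
      congr 1; push_cast; ring
    have e2 : (x ^ e) ^ 2 * (x ^ (1 / 2 + y + e)) ^ 2 = x ^ (1 + 2 * y + 4 * e) := by
      rw [← mul_pow, ← Real.rpow_add hx0, ← Real.rpow_natCast, ← Real.rpow_mul hx0.le]
      congr 1; push_cast; ring
    calc _ = C' ^ 2 * ((2 : ℝ) ^ e) ^ 2 * ((x ^ e) ^ 2 * (x ^ (1 / 2 + y + e)) ^ 2) := by ring
      _ = _ := by rw [e1, e2]
  have hW2 : x ^ (2 - 2 * e) ≤ W ^ 2 := by
    have := pow_le_pow_left₀ (by positivity) hW1 2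
    refine le_trans (le_of_eq ?_) this
    rw [← Real.rpow_natCast, ← Real.rpow_mul hx0.le]
    congr 1; push_cast; ring
  have hP : 0 < x ^ (1 + 2 * y + 4 * e) := by positivity
  have h8 : x ^ (2 - 2 * e) ≤ 8 * k * (C' ^ 2 * (2 : ℝ) ^ (2 * e) * x ^ (1 + 2 * y + 4 * e)) :=
    hW2.trans (hmain.trans (mul_le_mul_of_nonneg_left hB2 (by positivity)))
  have h9 : x ^ (1 - 2 * y - ε) * (x ^ (1 + 2 * y + 4 * e) * x ^ (2 * e)) = x ^ (2 - 2 * e) := by
    rw [← Real.rpow_add hx0, ← Real.rpow_add hx0]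
    congr 1
    rw [he]
    ring
  have h10 : 8 * (C' ^ 2 * (2 : ℝ) ^ (2 * e)) ≤ x ^ (2 * e) := by
    have : 0 ≤ C' ^ 2 * (2 : ℝ) ^ (2 * e) := by positivity
    linarith
  rw [← h9] at h8
  have h11 : x ^ (1 - 2 * y - ε) * (x ^ (1 + 2 * y + 4 * e) * x ^ (2 * e)) ≤
      k * (x ^ (1 + 2 * y + 4 * e) * x ^ (2 * e)) := by
    refine h8.trans ?_
    calc 8 * k * (C' ^ 2 * (2 : ℝ) ^ (2 * e) * x ^ (1 + 2 * y + 4 * e)) =
        (k * x ^ (1 + 2 * y + 4 * e)) * (8 * (C' ^ 2 * (2 : ℝ) ^ (2 * e))) := by ring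
      _ ≤ (k * x ^ (1 + 2 * y + 4 * e)) * x ^ (2 * e) :=
          mul_le_mul_of_nonneg_left h10 (by positivity)
      _ = _ := by ring
  exact le_of_mul_le_mul_right h11 (by positivity)

end Pool.Agent.H564.SC
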