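import Pool.Agent.H564.SC.Up
import Pool.Agent.H564.SC.Opt
import Pool.Agent.H564.SC.Noise
import Pool.Agent.H564.SC.NoiseLow

/-! Sparse samples of the primes and the zeros of all Dirichlet L-functions. -/

set_option autoImplicit false

open MeasureTheory Filter Topology Set Complex ProbabilityTheory

namespace Pool.Agent.H564.SC

open Pool.Agent.H564.BSD (wt)
open Pool.Agent.H564.SP (Dens count_up)

/-- `L(s, χ)` has no zeros with `Re s > 1/2 + y` -/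
def NoZeros {q : ℕ} [NeZero q] (χ : DirichletCharacter ℂ q) (y : ℝ) : Prop :=
  ∀ s : ℂ, 1 / 2 + y < s.re → DirichletCharacter.LFunction χ s ≠ 0

/-- the sums of `w(p) χ(p)` are `O(q^ε x^(1/2 + y + ε))`, uniformly in all characters `χ ≠ 1` modulo
all `q` -/
def Uniform (w : ℕ → ℂ) (y : ℝ) : Prop := ∀ ε : ℝ, 0 < ε → ∃ C : ℝ,
  ∀ (q : ℕ) [NeZero q] (χ : DirichletCharacter ℂ q), χ ≠ 1 → ∀ x : ℝ, 1 ≤ x →
    ‖charSum w χ x‖ ≤ C * (q : ℝ) ^ ε * x ^ (1 / 2 + y + ε)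

/-- the same with a logarithm of the modulus -/
def UniformLog (w : ℕ → ℂ) (y : ℝ) : Prop := ∀ ε : ℝ, 0 < ε → ∃ C : ℝ,
  ∀ (q : ℕ) [NeZero q] (χ : DirichletCharacter ℂ q), χ ≠ 1 → ∀ x : ℝ, 1 ≤ x →
    ‖charSum w χ x‖ ≤ C * (1 + Real.log q) * x ^ (1 / 2 + y + ε)

/-- `|∑_{p ≤ x} w(p)| ≥ x^(1-ε)` for all large `x` -/
def Normalised (w : ℕ → ℂ) : Prop := ∀ ε : ℝ, 0 < ε → ∀ᶠ x : ℝ in atTop,
  x ^ (1 - ε) ≤ ‖∑ p ∈ (Finset.range (⌊x⌋₊ + 1)).filter Nat.Prime, w p‖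

/-- the number of the primes `p ≤ x` with `w(p) ≠ 0` -/
noncomputable def used (w : ℕ → ℂ) (x : ℝ) : ℝ :=
  (((Finset.range (⌊x⌋₊ + 1)).filter fun p => p.Prime ∧ w p ≠ 0).card : ℝ)

/-- the weight of the sample -/
noncomputable def ws {Ω : Type*} (A : ℕ → Set Ω) (δ : ℕ → ℝ) (ω : Ω) (p : ℕ) : ℂ :=
  ((wt A δ ω p : ℝ) : ℂ)

theorem sum_cP {q : ℕ} (χ : DirichletCharacter ℂ q) (n : ℕ) :
    ∑ k ∈ Finset.range n, cP χ k = ∑ p ∈ (Finset.range n).filter Nat.Prime, χ p := by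
  rw [Finset.sum_filter]
  rfl

theorem split {Ω : Type*} (A : ℕ → Set Ω) (δ : ℕ → ℝ) (ω : Ω) (f : ℕ → ℂ) (n : ℕ) :
    ∑ p ∈ (Finset.range n).filter Nat.Prime, ws A δ ω p * f p =
      ∑ p ∈ (Finset.range n).filter Nat.Prime, ((wt A δ ω p : ℂ) - 1) * f p +
        ∑ p ∈ (Finset.range n).filter Nat.Prime, f p := by
  rw [← Finset.sum_add_distrib]
  refine Finset.sum_congr rfl fun p _ => ?_
  unfold ws
  ring

theorem mean_sq {q : ℕ} [NeZero q] (χ : DirichletCharacter ℂ q) {e : ℝ} (he : 0 < e) :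
    ∀ᶠ n : ℕ in atTop, (n : ℝ) ^ (1 - e) ≤
      ∑ p ∈ (Finset.range n).filter Nat.Prime, ‖χ (p : ZMod q)‖ ^ 2 := by
  have h1 : Tendsto (fun n : ℕ => (n : ℝ)) atTop atTop := tendsto_natCast_atTop_atTop
  have he' : 0 < min e 1 := lt_min he one_pos
  have h3 := h1.eventually ((tendsto_rpow_atTop
    (show 0 < min e 1 / 2 by positivity)).eventually_ge_atTop 2)
  have h4 := h1.eventually ((tendsto_rpow_atTop
    (show 0 < 1 - min e 1 / 2 by
      have := min_le_right e 1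
      linarith)).eventually_ge_atTop (2 * ((q : ℝ) + 1)))
  filter_upwards [primes_many (show 0 < min e 1 / 2 by positivity), h3, h4,
    eventually_gt_atTop 0] with n h5 h6 h7 hn
  have hn0 : (0 : ℝ) < n := by exact_mod_cast hn
  have hn1 : (1 : ℝ) ≤ n := by exact_mod_cast hn
  have h8 : (((Finset.range n).filter Nat.Prime).card : ℝ) ≤
      ∑ p ∈ (Finset.range n).filter Nat.Prime, ‖χ (p : ZMod q)‖ ^ 2 + ((q : ℝ) + 1) := by
    rw [← Finset.sum_filter_add_sum_filter_not ((Finset.range n).filter Nat.Prime) (fun p => q < p),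
      ← Finset.card_filter_add_card_filter_not (s := (Finset.range n).filter Nat.Prime)
        (fun p => q < p)]
    push_cast
    have a1 : ∀ p ∈ ((Finset.range n).filter Nat.Prime).filter (fun p => q < p),
        ‖χ (p : ZMod q)‖ ^ 2 = 1 := by
      intro p hp
      rw [Finset.mem_filter, Finset.mem_filter] at hp
      have hu : IsUnit ((p : ℕ) : ZMod q) := by
        rw [ZMod.isUnit_iff_coprime]
        exact (Nat.coprime_of_lt_prime (NeZero.ne q) hp.2 hp.1.2)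
      have := DirichletCharacter.unit_norm_eq_one χ hu.unit
      rw [IsUnit.unit_spec] at this
      rw [this, one_pow]
    rw [Finset.sum_congr rfl a1, Finset.sum_const, nsmul_eq_mul, mul_one]
    have a2 : 0 ≤ ∑ p ∈ ((Finset.range n).filter Nat.Prime).filter (fun p => ¬ q < p),
        ‖χ (p : ZMod q)‖ ^ 2 := Finset.sum_nonneg fun _ _ => by positivity
    have a3 : (((Finset.range n).filter Nat.Prime).filter (fun p => ¬ q < p)).card ≤ q + 1 := by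
      refine (Finset.card_le_card (t := Finset.range (q + 1)) ?_).trans (Finset.card_range _).le
      intro p hp
      rw [Finset.mem_filter] at hp
      rw [Finset.mem_range]
      omega
    have a4 : ((((Finset.range n).filter Nat.Prime).filter (fun p => ¬ q < p)).card : ℝ) ≤
        (q : ℝ) + 1 := by exact_mod_cast a3
    linarith
  have h9 : (n : ℝ) ^ (1 - e) ≤ (n : ℝ) ^ (1 - min e 1) :=
    Real.rpow_le_rpow_of_exponent_le hn1 (by linarith [min_le_left e 1])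
  have h10 : (n : ℝ) ^ (1 - min e 1 / 2) = (n : ℝ) ^ (1 - min e 1) * (n : ℝ) ^ (min e 1 / 2) := by
    rw [← Real.rpow_add hn0]
    congr 1
    ring
  have h11 : 0 ≤ (n : ℝ) ^ (1 - min e 1) := by positivity
  have h12 : (n : ℝ) ^ (1 - min e 1) * 2 ≤ (n : ℝ) ^ (1 - min e 1 / 2) := by
    rw [h10]
    exact mul_le_mul_of_nonneg_left h6 h11
  linarith

theorem exists_ne_one : ∃ χ : DirichletCharacter ℂ 3, χ ≠ 1 := by
  by_contra hcon
  push Not at hcon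
  have h1 : Nat.card (DirichletCharacter ℂ 3) = Nat.totient 3 :=
    DirichletCharacter.card_eq_totient_of_hasEnoughRootsOfUnity ℂ 3
  have h2 : Nat.card (DirichletCharacter ℂ 3) = 1 := by
    have : Unique (DirichletCharacter ℂ 3) := ⟨⟨1⟩, hcon⟩
    exact Nat.card_unique
  rw [h2] at h1
  exact absurd h1 (by decide)

section deterministic

variable {Ω : Type*} {A : ℕ → Set Ω} {δ : ℕ → ℝ} {η : ℝ} {ω : Ω}

/-- the bound of the noise -/
def NoiseUp (A : ℕ → Set Ω) (δ : ℕ → ℝ) (η : ℝ) (ω : Ω) : Prop :=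
  ∀ ε : ℝ, 0 < ε → ∃ C : ℝ, ∀ (q : ℕ) (χ : DirichletCharacter ℂ (q + 1)) (n : ℕ),
      ‖∑ p ∈ (Finset.range n).filter Nat.Prime, ((wt A δ ω p : ℂ) - 1) * χ p‖ ≤
        C * (1 + Real.log ((q : ℝ) + 1)) * ((n : ℝ) + 1) ^ (1 / 2 + η + ε)

theorem NoiseUp.le (h : NoiseUp A δ η ω) {ε : ℝ} (hε : 0 < ε) : ∃ C : ℝ, 0 ≤ C ∧ ∀ (q : ℕ) [NeZero q]
    (χ : DirichletCharacter ℂ q) (n : ℕ),
      ‖∑ p ∈ (Finset.range n).filter Nat.Prime, ((wt A δ ω p : ℂ) - 1) * χ p‖ ≤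
        C * (1 + Real.log q) * ((n : ℝ) + 1) ^ (1 / 2 + η + ε) := by
  obtain ⟨C, hC⟩ := h ε hε
  refine ⟨|C|, abs_nonneg C, fun q _ χ n => ?_⟩
  obtain ⟨m, rfl⟩ : ∃ m, q = m + 1 := ⟨q - 1, by have := NeZero.ne q; omega⟩
  refine (hC m χ n).trans ?_
  push_cast
  have hl : 0 ≤ Real.log ((m : ℝ) + 1) := Real.log_nonneg (by
    have : (0 : ℝ) ≤ m := Nat.cast_nonneg m
    linarith)
  refine mul_le_mul_of_nonneg_right (mul_le_mul_of_nonneg_right (le_abs_self C) ?_) (by positivity)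
  linarith

/-- **from zeros to the sums of the sample** -/
theorem sample_up (h : NoiseUp A δ η ω) {y : ℝ} (hy : 0 ≤ y) (hηy : η ≤ y)
    {ε : ℝ} (hε : 0 < ε) : ∃ C : ℝ, 0 ≤ C ∧ ∀ (q : ℕ) [NeZero q] (χ : DirichletCharacter ℂ q), χ ≠ 1 →
      NoZeros χ y → ∀ x : ℝ, 1 ≤ x →
      ‖charSum (ws A δ ω) χ x‖ ≤ C * (1 + Real.log q) * x ^ (1 / 2 + y + ε) := by
  obtain ⟨C₁, hC₁0, hC₁⟩ := h.le hε
  obtain ⟨C₂, hC₂⟩ := up_unif (a := 1 / 2 + y) (by linarith) hε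
  refine ⟨C₁ * 3 ^ (1 / 2 + y + ε) + |C₂|, by positivity, fun q _ χ hχ hne x hx => ?_⟩
  have hq1 : (1 : ℝ) ≤ q := by exact_mod_cast Nat.pos_of_ne_zero (NeZero.ne q)
  have hlq : 0 ≤ Real.log q := Real.log_nonneg hq1
  unfold charSum
  rw [split A δ ω (fun p => χ p) (⌊x⌋₊ + 1)]
  have h1 := hC₁ q χ (⌊x⌋₊ + 1)
  have h2 := hC₂ q χ hχ hne x hx
  rw [sum_cP] at h2
  refine (norm_add_le _ _).trans ?_
  have h3 : (((⌊x⌋₊ + 1 : ℕ) : ℝ) + 1) ^ (1 / 2 + η + ε) ≤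
      3 ^ (1 / 2 + y + ε) * x ^ (1 / 2 + y + ε) := by
    have e1 : ((⌊x⌋₊ + 1 : ℕ) : ℝ) + 1 ≤ 3 * x := by
      push_cast
      linarith [Nat.floor_le (show 0 ≤ x by linarith)]
    have e2 : (1 : ℝ) ≤ ((⌊x⌋₊ + 1 : ℕ) : ℝ) + 1 := by
      have : (0 : ℝ) ≤ ((⌊x⌋₊ + 1 : ℕ) : ℝ) := Nat.cast_nonneg _
      linarith
    calc _ ≤ (((⌊x⌋₊ + 1 : ℕ) : ℝ) + 1) ^ (1 / 2 + y + ε) :=
          Real.rpow_le_rpow_of_exponent_le e2 (by linarith)
      _ ≤ (3 * x) ^ (1 / 2 + y + ε) := Real.rpow_le_rpow (by linarith) e1 (by linarith)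
      _ = _ := Real.mul_rpow (by norm_num) (by linarith)
  have h4 : 0 ≤ x ^ (1 / 2 + y + ε) := by positivity
  calc _ ≤ C₁ * (1 + Real.log q) * (3 ^ (1 / 2 + y + ε) * x ^ (1 / 2 + y + ε)) +
        |C₂| * (1 + Real.log q) * x ^ (1 / 2 + y + ε) := by
        refine add_le_add (h1.trans ?_) (h2.trans ?_)
        · exact mul_le_mul_of_nonneg_left h3 (by positivity)
        · exact mul_le_mul_of_nonneg_right (mul_le_mul_of_nonneg_right (le_abs_self _)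
            (by linarith)) h4
    _ = _ := by ring

/-- **from the sums of the sample to zeros** -/
theorem sample_down (h : NoiseUp A δ η ω) {y : ℝ} (hy : 0 ≤ y) (hηy : η ≤ y) {q : ℕ} [NeZero q]
    {χ : DirichletCharacter ℂ q} (hχ : χ ≠ 1) (hb : ∀ ε : ℝ, 0 < ε → ∀ᶠ x : ℝ in atTop,
      ‖charSum (ws A δ ω) χ x‖ ≤ x ^ (1 / 2 + y + ε)) : NoZeros χ y := by
  intro s hs
  refine down hχ (a := 1 / 2 + y) (by linarith) (fun ε hε => ?_) hs
  obtain ⟨C₁, hC₁0, hC₁⟩ := h.le hε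
  obtain ⟨X, hX⟩ := eventually_atTop.1 (hb ε hε)
  set K : ℝ := C₁ * (1 + Real.log q) with hK
  set D : ℝ := ∑ n ∈ Finset.range (⌈X⌉₊ + 1), ‖∑ k ∈ Finset.range (n + 1), cP χ k‖ with hD
  have hD0 : 0 ≤ D := Finset.sum_nonneg fun _ _ => norm_nonneg _
  refine ⟨|K| * 2 ^ (1 / 2 + y + ε) + 1 + D, fun n => ?_⟩
  have hn1 : (1 : ℝ) ≤ (n : ℝ) + 1 := by
    have : (0 : ℝ) ≤ n := Nat.cast_nonneg n
    linarith
  have hp1 : 1 ≤ ((n : ℝ) + 1) ^ (1 / 2 + y + ε) := Real.one_le_rpow hn1 (by linarith)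
  rcases lt_or_ge n (⌈X⌉₊ + 1) with h1 | h1
  · have h2 : ‖∑ k ∈ Finset.range (n + 1), cP χ k‖ ≤ D :=
      Finset.single_le_sum (f := fun n => ‖∑ k ∈ Finset.range (n + 1), cP χ k‖)
        (fun _ _ => norm_nonneg _) (Finset.mem_range.2 h1)
    refine h2.trans ?_
    have h3 : D ≤ |K| * 2 ^ (1 / 2 + y + ε) + 1 + D := by
      have : 0 ≤ |K| * 2 ^ (1 / 2 + y + ε) := by positivity
      linarith
    exact h3.trans (le_mul_of_one_le_right (by positivity) hp1)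
  · have hXn : X ≤ n := by
      have h2 : X ≤ ⌈X⌉₊ := Nat.le_ceil X
      have h3 : ((⌈X⌉₊ : ℕ) : ℝ) ≤ n := by exact_mod_cast (by omega : ⌈X⌉₊ ≤ n)
      linarith
    have h4 := hX n hXn
    unfold charSum at h4
    rw [Nat.floor_natCast, split A δ ω (fun p => χ p) (n + 1), ← sum_cP] at h4
    have h5 := hC₁ q χ (n + 1)
    have h6 : ‖∑ k ∈ Finset.range (n + 1), cP χ k‖ ≤ (n : ℝ) ^ (1 / 2 + y + ε) +
        K * (((n + 1 : ℕ) : ℝ) + 1) ^ (1 / 2 + η + ε) := by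
      have := norm_sub_norm_le (∑ k ∈ Finset.range (n + 1), cP χ k)
        (-∑ p ∈ (Finset.range (n + 1)).filter Nat.Prime, ((wt A δ ω p : ℂ) - 1) * χ p)
      rw [sub_neg_eq_add, norm_neg, add_comm (∑ k ∈ Finset.range (n + 1), cP χ k)] at this
      linarith
    refine h6.trans ?_
    have h7 : (n : ℝ) ^ (1 / 2 + y + ε) ≤ ((n : ℝ) + 1) ^ (1 / 2 + y + ε) :=
      Real.rpow_le_rpow (Nat.cast_nonneg n) (by linarith) (by linarith)
    have h8 : (((n + 1 : ℕ) : ℝ) + 1) ^ (1 / 2 + η + ε) ≤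
        2 ^ (1 / 2 + y + ε) * ((n : ℝ) + 1) ^ (1 / 2 + y + ε) := by
      have e1 : ((n + 1 : ℕ) : ℝ) + 1 ≤ 2 * ((n : ℝ) + 1) := by
        push_cast
        linarith [Nat.cast_nonneg (α := ℝ) n]
      have e2 : (1 : ℝ) ≤ ((n + 1 : ℕ) : ℝ) + 1 := by
        have : (0 : ℝ) ≤ ((n + 1 : ℕ) : ℝ) := Nat.cast_nonneg _
        linarith
      calc _ ≤ (((n + 1 : ℕ) : ℝ) + 1) ^ (1 / 2 + y + ε) :=
            Real.rpow_le_rpow_of_exponent_le e2 (by linarith)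
        _ ≤ (2 * ((n : ℝ) + 1)) ^ (1 / 2 + y + ε) :=
            Real.rpow_le_rpow (by linarith) e1 (by linarith)
        _ = _ := Real.mul_rpow (by norm_num) (by linarith)
    have h9 : 0 ≤ ((n : ℝ) + 1) ^ (1 / 2 + y + ε) := by positivity
    calc _ ≤ ((n : ℝ) + 1) ^ (1 / 2 + y + ε) +
          |K| * (2 ^ (1 / 2 + y + ε) * ((n : ℝ) + 1) ^ (1 / 2 + y + ε)) := by
          refine add_le_add h7 (mul_le_mul (le_abs_self K) h8 (by positivity) (abs_nonneg K))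
      _ ≤ (|K| * 2 ^ (1 / 2 + y + ε) + 1 + D) * ((n : ℝ) + 1) ^ (1 / 2 + y + ε) := by
          nlinarith [mul_nonneg hD0 h9]

/-- the lower bound of the sums of the sample gives `η ≤ y` -/
theorem sample_res {y : ℝ} {q : ℕ} [NeZero q] {χ : DirichletCharacter ℂ q}
    (hy : 0 ≤ y) (hlow : 0 < η → ∀ ε : ℝ, 0 < ε → ∃ᶠ n : ℕ in atTop, (n : ℝ) ^ (1 / 2 + η - ε) ≤
      ‖∑ p ∈ (Finset.range n).filter Nat.Prime, χ p +
        ∑ p ∈ (Finset.range n).filter Nat.Prime, ((wt A δ ω p : ℂ) - 1) * χ p‖)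
    (hb : ∀ ε : ℝ, 0 < ε → ∀ᶠ x : ℝ in atTop,
      ‖charSum (ws A δ ω) χ x‖ ≤ x ^ (1 / 2 + y + ε)) : η ≤ y := by
  by_contra hcon
  push Not at hcon
  set e : ℝ := (η - y) / 3 with he
  have he0 : 0 < e := by rw [he]; linarith
  have h1 := hlow (by linarith) e he0
  have h2 := hb e he0
  have ht : Tendsto (fun n : ℕ => (n : ℝ) - 1) atTop atTop :=
    tendsto_atTop_add_const_right _ _ tendsto_natCast_atTop_atTop
  have h3 : ∀ᶠ n : ℕ in atTop, ‖∑ p ∈ (Finset.range n).filter Nat.Prime, χ p +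
        ∑ p ∈ (Finset.range n).filter Nat.Prime, ((wt A δ ω p : ℂ) - 1) * χ p‖ ≤
        (n : ℝ) ^ (1 / 2 + y + e) := by
    filter_upwards [ht.eventually h2, eventually_ge_atTop 1] with n h4 hn
    obtain ⟨m, rfl⟩ : ∃ m, n = m + 1 := ⟨n - 1, by omega⟩
    push_cast at h4 ⊢
    rw [add_sub_cancel_right] at h4
    unfold charSum at h4
    rw [Nat.floor_natCast, split A δ ω (fun p => χ p) (m + 1), add_comm] at h4
    refine h4.trans (Real.rpow_le_rpow (Nat.cast_nonneg m) (by linarith) (by linarith))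
  have h5 : ∀ᶠ n : ℕ in atTop, (n : ℝ) ^ (1 / 2 + y + e) < (n : ℝ) ^ (1 / 2 + η - e) := by
    filter_upwards [eventually_gt_atTop 1] with n hn
    have : (1 : ℝ) < n := by exact_mod_cast hn
    exact Real.rpow_lt_rpow_of_exponent_lt this (by rw [he]; linarith)
  obtain ⟨n, hn1, hn2, hn3⟩ := (h1.and_eventually (h3.and h5)).exists
  linarith

end deterministic

end Pool.Agent.H564.SC
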