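import Pool.Agent.H564.SC.Perron

/-! The sharp sums. -/

set_option autoImplicit false

open MeasureTheory Filter Topology Set Complex

namespace Pool.Agent.H564.SC

/-- `log n` -/
noncomputable def lg (n : ℕ) : ℝ := Real.log n

theorem lg_nonneg (n : ℕ) : 0 ≤ lg n := Real.log_natCast_nonneg n

theorem sum_two {c : ℕ → ℂ} (hc : ∀ n, ‖c n‖ ≤ 1) (h0 : c 0 = 0) :
    Summable fun n => ‖c n‖ * Real.exp (-(2 * lg n)) := by
  refine Summable.of_nonneg_of_le (fun n => by positivity) (fun n => ?_)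
    (Real.summable_nat_pow_inv.2 (by norm_num : 1 < 2))
  rcases Nat.eq_zero_or_pos n with rfl | hn
  · rw [h0]; simp
  · have hn0 : (0 : ℝ) < n := by exact_mod_cast hn
    have e1 : Real.exp (-(2 * lg n)) = ((n : ℝ) ^ 2)⁻¹ := by
      rw [Real.exp_neg, lg, mul_comm, Real.exp_mul, Real.exp_log hn0]
      norm_cast
    rw [e1]
    exact mul_le_of_le_one_left (by positivity) (hc n)

/-- the constant -/
noncomputable def KK (x ε : ℝ) : ℝ := (2 * Real.pi)⁻¹ * (2 * Real.exp x *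
  (1 + 1 / x) ^ (2 - (1 - 2 * ε)) * ∫ t : ℝ, (1 + |t|) ^ (-(1 + ε)))

theorem KK_nonneg {x ε : ℝ} (hx : 0 < x) : 0 ≤ KK x ε := by
  unfold KK
  have : 0 ≤ ∫ t : ℝ, (1 + |t|) ^ (-(1 + ε)) := integral_nonneg fun t => by positivity
  positivity

/-- **The sharp sums.** -/
theorem sharp {c : ℕ → ℂ} (hc : ∀ n, ‖c n‖ ≤ 1) (h0 : c 0 = 0) {Λ : ℂ → ℂ} {x B ε : ℝ}
    (hx : 0 < x) (hx3 : x < 3) (hd : ∀ s : ℂ, x ≤ s.re → DifferentiableAt ℂ Λ s)
    (he : ∀ s : ℂ, 2 < s.re → Λ s = DC lg c s) (hε : 0 < ε) (hε2 : ε ≤ 1 / 2) (hB : 0 ≤ B)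
    (hb : ∀ s : ℂ, x ≤ s.re → s.re ≤ 3 → ‖Λ s‖ ≤ B * (1 + |s.im|) ^ ε) {X : ℝ} (hX : 1 ≤ X) :
    ‖∑ n ∈ Finset.range (⌊X⌋₊ + 1), c n‖ ≤ KK x ε * B * X ^ (x + ε) + 3 * X ^ (1 / 2 : ℝ) := by
  have hX0 : 0 < X := by linarith
  set T : ℝ := Real.log X with hT
  set h : ℝ := X ^ (-(1 / 2) : ℝ) with hh
  have hh0 : 0 < h := by positivity
  have hh1 : h ≤ 1 := Real.rpow_le_one_of_one_le_of_nonpos hX (by norm_num)
  have key := diff_le (lam := lg) (c := c) (σ := 2) (by norm_num) lg_nonneg (sum_two hc h0)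
    (Λ := Λ) hx (by linarith) hd he hε hε2 hB (by norm_num; exact hb) T h hh0.le hh1
  change _ ≤ KK x ε * B * _ at key
  set N : ℕ := ⌊X⌋₊ with hN
  set M : ℕ := ⌊X * Real.exp h⌋₊ with hM
  have hexp1 : 1 ≤ Real.exp h := Real.one_le_exp hh0.le
  have hNM : N ≤ M := Nat.floor_le_floor (le_mul_of_one_le_right hX0.le hexp1)
  set g : ℕ → ℝ := fun n => max (T + h - lg n) 0 - max (T - lg n) 0 with hg
  have hgz : ∀ n, M < n → g n = 0 := by
    intro n hn
    have h1 : X * Real.exp h < n := (Nat.floor_lt (by positivity)).1 hn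
    have h2 : T + h < lg n := by
      have := Real.log_lt_log (by positivity) h1
      rwa [Real.log_mul hX0.ne' (Real.exp_pos h).ne', Real.log_exp] at this
    simp only [hg]
    rw [max_eq_right (by linarith), max_eq_right (by linarith), sub_zero]
  have hg1 : ∀ n, 1 ≤ n → n ≤ N → g n = h := by
    intro n hn1 hn
    have hn0 : (0 : ℝ) < n := by exact_mod_cast hn1
    have h1 : (n : ℝ) ≤ X := (Nat.cast_le.2 hn).trans (Nat.floor_le hX0.le)
    have h2 : lg n ≤ T := Real.log_le_log hn0 h1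
    simp only [hg]
    rw [max_eq_left (by linarith), max_eq_left (by linarith)]
    ring
  have hgb : ∀ n, |g n| ≤ h := by
    intro n
    simp only [hg]
    rw [abs_le]
    rcases le_total 0 (T - lg n) with h2 | h2
    · rw [max_eq_left h2, max_eq_left (by linarith)]
      constructor <;> linarith
    · rw [max_eq_right h2, sub_zero]
      constructor
      · linarith [le_max_right (T + h - lg n) 0]
      · exact max_le (by linarith) hh0.le
  have hts : (∑' n, c n * ((max (T + h - lg n) 0 - max (T - lg n) 0 : ℝ) : ℂ)) =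
      ∑ n ∈ Finset.range (M + 1), c n * (g n : ℂ) := by
    refine tsum_eq_sum fun n hn => ?_
    rw [Finset.mem_range, not_lt] at hn
    have := hgz n (by omega)
    simp only [hg] at this
    rw [this, Complex.ofReal_zero, mul_zero]
  rw [hts] at key
  have hsplit : ∑ n ∈ Finset.range (M + 1), c n * (g n : ℂ) =
      (∑ n ∈ Finset.range (N + 1), c n) * (h : ℂ) +
        ∑ n ∈ Finset.Ico (N + 1) (M + 1), c n * (g n : ℂ) := by
    rw [← Finset.sum_range_add_sum_Ico _ (show N + 1 ≤ M + 1 by omega), Finset.sum_mul]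
    congr 1
    refine Finset.sum_congr rfl fun n hn => ?_
    rw [Finset.mem_range] at hn
    rcases Nat.eq_zero_or_pos n with rfl | hn1
    · rw [h0]; simp
    · rw [hg1 n hn1 (by omega)]
  have htail : ‖∑ n ∈ Finset.Ico (N + 1) (M + 1), c n * (g n : ℂ)‖ ≤ ((M : ℝ) - N) * h := by
    have h1 : ∀ n ∈ Finset.Ico (N + 1) (M + 1), ‖c n * (g n : ℂ)‖ ≤ h := by
      intro n _
      rw [norm_mul, Complex.norm_real, Real.norm_eq_abs]
      calc ‖c n‖ * |g n| ≤ 1 * h := mul_le_mul (hc n) (hgb n) (abs_nonneg _) zero_le_one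
        _ = h := one_mul h
    refine (norm_sum_le_of_le _ h1).trans (le_of_eq ?_)
    rw [Finset.sum_const, Nat.card_Ico, nsmul_eq_mul]
    congr 1
    have : M + 1 - (N + 1) = M - N := by omega
    rw [this, Nat.cast_sub hNM]
  have hMN : (M : ℝ) - N ≤ 3 * X ^ (1 / 2 : ℝ) := by
    have h1 : (M : ℝ) ≤ X * Real.exp h := Nat.floor_le (by positivity)
    have h2 : X < N + 1 := Nat.lt_floor_add_one X
    have h3 : Real.exp h ≤ 1 + 2 * h := by
      have := Real.abs_exp_sub_one_le (x := h) (by rw [abs_of_pos hh0]; exact hh1)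
      rw [abs_of_nonneg (by linarith), abs_of_pos hh0] at this
      linarith
    have h4 : X * h = X ^ (1 / 2 : ℝ) := by
      rw [hh]
      nth_rewrite 1 [← Real.rpow_one X]
      rw [← Real.rpow_add hX0]
      norm_num
    have h5 : 1 ≤ X ^ (1 / 2 : ℝ) := Real.one_le_rpow hX (by norm_num)
    have h6 : X * Real.exp h ≤ X + 2 * (X * h) := by nlinarith
    rw [h4] at h6
    linarith
  have hkey2 : ‖∑ n ∈ Finset.range (N + 1), c n‖ * h ≤
      KK x ε * B * (Real.exp (x * T) * h ^ (1 - 2 * ε)) + (3 * X ^ (1 / 2 : ℝ)) * h := by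
    have h1 : (∑ n ∈ Finset.range (N + 1), c n) * (h : ℂ) =
        ∑ n ∈ Finset.range (M + 1), c n * (g n : ℂ) -
          ∑ n ∈ Finset.Ico (N + 1) (M + 1), c n * (g n : ℂ) := by rw [hsplit]; ring
    have h2 : ‖∑ n ∈ Finset.range (N + 1), c n‖ * h =
        ‖(∑ n ∈ Finset.range (N + 1), c n) * (h : ℂ)‖ := by
      rw [norm_mul, Complex.norm_real, Real.norm_of_nonneg hh0.le]
    rw [h2, h1]
    refine (norm_sub_le _ _).trans (add_le_add key (htail.trans ?_))
    exact mul_le_mul_of_nonneg_right hMN hh0.le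
  have h7 : Real.exp (x * T) * h ^ (1 - 2 * ε) = X ^ (x + ε) * h := by
    have e1 : Real.exp (x * T) = X ^ x := by
      rw [Real.rpow_def_of_pos hX0, mul_comm]
    rw [e1, hh, ← Real.rpow_mul hX0.le, ← Real.rpow_add hX0, ← Real.rpow_add hX0]
    congr 1
    ring
  rw [h7] at hkey2
  have h8 : ‖∑ n ∈ Finset.range (N + 1), c n‖ * h ≤
      (KK x ε * B * X ^ (x + ε) + 3 * X ^ (1 / 2 : ℝ)) * h := by
    linarith
  exact le_of_mul_le_mul_right h8 hh0

end Pool.Agent.H564.SC
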