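import Pool.Agent.H564.SC.Cont
import Pool.Agent.H564.SC.Sharp
import Pool.Graph.R_seed8.TH942.RZ.Log
import Pool.Graph.R_seed8.H341R2.PrimeSums

/-! The logarithm of `L(s, χ)` in a zero-free half plane, uniformly in the modulus, and the sums of
`χ(p)`. -/

set_option autoImplicit false

open MeasureTheory Filter Topology Set Complex
open Pool.Agent.H341R2 (norm_prime_cpow summable_prime_rpow)
open Pool.Agent.TH942.RZ (HP HP_open HP_convex exists_log log_unique)

namespace Pool.Agent.H564.SC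

/-- `χ` on the primes -/
noncomputable def cP {q : ℕ} (χ : DirichletCharacter ℂ q) (n : ℕ) : ℂ :=
  if n.Prime then χ n else 0

theorem cP_le {q : ℕ} (χ : DirichletCharacter ℂ q) (n : ℕ) : ‖cP χ n‖ ≤ 1 := by
  unfold cP
  split_ifs
  · exact χ.norm_le_one _
  · simp

theorem cP_zero {q : ℕ} (χ : DirichletCharacter ℂ q) : cP χ 0 = 0 := by
  unfold cP
  rw [if_neg Nat.not_prime_zero]

/-- the prime powers -/
noncomputable def GG {q : ℕ} (χ : DirichletCharacter ℂ q) (s : ℂ) : ℂ :=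
  ∑' p : Nat.Primes, (-Complex.log (1 - χ p * ((p : ℕ) : ℂ) ^ (-s)) - χ p * ((p : ℕ) : ℂ) ^ (-s))

theorem term_norm {q : ℕ} (χ : DirichletCharacter ℂ q) (p : Nat.Primes) (s : ℂ) :
    ‖χ p * ((p : ℕ) : ℂ) ^ (-s)‖ ≤ (p : ℝ) ^ (-s.re) := by
  rw [norm_mul, norm_prime_cpow]
  exact mul_le_of_le_one_left (by positivity) (χ.norm_le_one _)

theorem term_half {q : ℕ} (χ : DirichletCharacter ℂ q) (p : Nat.Primes) {s : ℂ}
    (hs : 1 / 2 ≤ s.re) : ‖χ p * ((p : ℕ) : ℂ) ^ (-s)‖ ≤ 3 / 4 := by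
  refine (term_norm χ p s).trans ?_
  have h2 : (2 : ℝ) ≤ p := by exact_mod_cast p.2.two_le
  calc (p : ℝ) ^ (-s.re) ≤ (p : ℝ) ^ (-(1 / 2) : ℝ) :=
        Real.rpow_le_rpow_of_exponent_le (by linarith) (by linarith)
    _ ≤ (2 : ℝ) ^ (-(1 / 2) : ℝ) := Real.rpow_le_rpow_of_nonpos (by norm_num) h2 (by norm_num)
    _ ≤ 3 / 4 := by
        rw [Real.rpow_neg (by norm_num), ← Real.sqrt_eq_rpow]
        have : (4 / 3 : ℝ) ≤ √2 := Real.le_sqrt_of_sq_le (by norm_num)
        calc (√2)⁻¹ ≤ (4 / 3 : ℝ)⁻¹ := inv_anti₀ (by norm_num) this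
          _ = 3 / 4 := by norm_num

theorem gterm_le {q : ℕ} (χ : DirichletCharacter ℂ q) (p : Nat.Primes) {s : ℂ}
    (hs : 1 / 2 ≤ s.re) : ‖-Complex.log (1 - χ p * ((p : ℕ) : ℂ) ^ (-s)) -
      χ p * ((p : ℕ) : ℂ) ^ (-s)‖ ≤ 2 * (p : ℝ) ^ (-(2 * s.re)) := by
  set z : ℂ := χ p * ((p : ℕ) : ℂ) ^ (-s) with hz
  have h34 : ‖z‖ ≤ 3 / 4 := term_half χ p hs
  have h1 : ‖-z‖ < 1 := by rw [norm_neg]; linarith
  have h2 := Complex.norm_log_one_add_sub_self_le h1
  rw [norm_neg] at h2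
  have h3 : -Complex.log (1 - z) - z = -(Complex.log (1 + -z) - -z) := by
    rw [← sub_eq_add_neg]; ring
  rw [h3, norm_neg]
  refine h2.trans ?_
  have h4 : (1 - ‖z‖)⁻¹ ≤ 4 := by
    rw [inv_le_comm₀ (by linarith) (by norm_num)]
    linarith
  have h5 : ‖z‖ ^ 2 ≤ (p : ℝ) ^ (-(2 * s.re)) := by
    have := pow_le_pow_left₀ (norm_nonneg _) (term_norm χ p s) 2
    refine this.trans (le_of_eq ?_)
    rw [← Real.rpow_natCast, ← Real.rpow_mul (Nat.cast_nonneg _)]
    congr 1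
    push_cast
    ring
  nlinarith [sq_nonneg ‖z‖, norm_nonneg z, mul_le_mul_of_nonneg_left h4 (sq_nonneg ‖z‖)]

/-- `∑ p ^ (-2x)` -/
noncomputable def ZZ (x : ℝ) : ℝ := ∑' p : Nat.Primes, (p : ℝ) ^ (-(2 * x))

theorem summ_Z {x : ℝ} (hx : 1 / 2 < x) : Summable fun p : Nat.Primes => (p : ℝ) ^ (-(2 * x)) :=
  summable_prime_rpow (by linarith)

theorem ZZ_nonneg (x : ℝ) : 0 ≤ ZZ x := tsum_nonneg fun _ => by positivity

theorem GG_le {q : ℕ} (χ : DirichletCharacter ℂ q) {x : ℝ} (hx : 1 / 2 < x) {s : ℂ}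
    (hs : x ≤ s.re) : ‖GG χ s‖ ≤ 2 * ZZ x := by
  unfold GG ZZ
  rw [← tsum_mul_left]
  refine tsum_of_norm_bounded ((summ_Z hx).mul_left 2).hasSum fun p => ?_
  refine (gterm_le χ p (by linarith)).trans (mul_le_mul_of_nonneg_left ?_ (by norm_num))
  have h1 : (1 : ℝ) ≤ p := by exact_mod_cast p.2.one_lt.le
  exact Real.rpow_le_rpow_of_exponent_le h1 (by linarith)

theorem GG_diff {q : ℕ} (χ : DirichletCharacter ℂ q) {s : ℂ} (hs : 1 / 2 < s.re) :
    DifferentiableAt ℂ (GG χ) s := by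
  obtain ⟨x, hx1, hx2⟩ := exists_between hs
  have ho : IsOpen {z : ℂ | x < z.re} := isOpen_lt continuous_const Complex.continuous_re
  have h : DifferentiableOn ℂ (fun s => ∑' p : Nat.Primes,
      (-Complex.log (1 - χ p * ((p : ℕ) : ℂ) ^ (-s)) - χ p * ((p : ℕ) : ℂ) ^ (-s)))
      {z : ℂ | x < z.re} := by
    refine differentiableOn_tsum_of_summable_norm ((summ_Z hx1).mul_left 2) (fun p => ?_) ho
      fun p w hw => ?_
    · intro w hw
      have hw' : x < w.re := hw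
      have hp0 : ((p : ℕ) : ℂ) ≠ 0 := by exact_mod_cast p.2.ne_zero
      have hcp : DifferentiableAt ℂ (fun s : ℂ => ((p : ℕ) : ℂ) ^ (-s)) w :=
        (differentiableAt_id.neg).const_cpow (Or.inl hp0)
      have hz : DifferentiableAt ℂ (fun s : ℂ => χ p * ((p : ℕ) : ℂ) ^ (-s)) w := hcp.const_mul _
      have hslit : (1 - χ p * ((p : ℕ) : ℂ) ^ (-w)) ∈ slitPlane := by
        have h34 := term_half χ p (s := w) (by linarith)
        left
        rw [Complex.sub_re, Complex.one_re]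
        have := (Complex.re_le_norm (χ p * ((p : ℕ) : ℂ) ^ (-w)))
        linarith
      exact ((((hz.const_sub 1).clog hslit).neg).sub hz).differentiableWithinAt
    · have hw' : x < w.re := hw
      refine (gterm_le χ p (by linarith)).trans (mul_le_mul_of_nonneg_left ?_ (by norm_num))
      have h1 : (1 : ℝ) ≤ p := by exact_mod_cast p.2.one_lt.le
      exact Real.rpow_le_rpow_of_exponent_le h1 (by linarith)
  exact (h.differentiableAt (ho.mem_nhds hx2))

theorem LS_eq_tsum {q : ℕ} (χ : DirichletCharacter ℂ q) (s : ℂ) :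
    LSeries (cP χ) s = ∑' p : Nat.Primes, χ p * ((p : ℕ) : ℂ) ^ (-s) := by
  have h1 : ∀ n : ℕ, LSeries.term (cP χ) s n =
      ({p : ℕ | p.Prime} : Set ℕ).indicator (fun n : ℕ => χ n * (n : ℂ) ^ (-s)) n := by
    intro n
    by_cases h : n.Prime
    · rw [indicator_of_mem (show n ∈ {p : ℕ | p.Prime} from h), LSeries.term_of_ne_zero h.ne_zero,
        cP, if_pos h, Complex.cpow_neg, div_eq_mul_inv]
    · rw [indicator_of_notMem (show n ∉ {p : ℕ | p.Prime} from h)]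
      rcases eq_or_ne n 0 with rfl | h0
      · exact LSeries.term_zero _ _
      · rw [LSeries.term_of_ne_zero h0, cP, if_neg h, zero_div]
  unfold LSeries
  simp only [h1]
  rw [← tsum_subtype]
  rfl

theorem DC_eq {q : ℕ} (χ : DirichletCharacter ℂ q) (s : ℂ) : DC lg (cP χ) s = LSeries (cP χ) s := by
  unfold DC LSeries
  refine tsum_congr fun n => ?_
  rcases eq_or_ne n 0 with rfl | h0
  · rw [cP_zero, zero_mul, LSeries.term_zero]
  · rw [LSeries.term_of_ne_zero h0, div_eq_mul_inv, ← Complex.cpow_neg]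
    congr 1
    rw [Complex.cpow_def_of_ne_zero (by exact_mod_cast h0), lg]
    congr 1
    rw [Complex.ofReal_log (Nat.cast_nonneg n), Complex.ofReal_natCast]
    ring

theorem summ_P {q : ℕ} (χ : DirichletCharacter ℂ q) {s : ℂ} (hs : 1 < s.re) :
    Summable fun p : Nat.Primes => χ p * ((p : ℕ) : ℂ) ^ (-s) :=
  Summable.of_norm_bounded (summable_prime_rpow (by linarith)) fun p => term_norm χ p s

/-- the Euler product -/
theorem euler {q : ℕ} [NeZero q] (χ : DirichletCharacter ℂ q) {s : ℂ} (hs : 1 < s.re) :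
    exp (LSeries (cP χ) s + GG χ s) = DirichletCharacter.LFunction χ s := by
  rw [DirichletCharacter.LFunction_eq_LSeries χ hs,
    ← DirichletCharacter.LSeries_eulerProduct_exp_log χ hs, LS_eq_tsum]
  congr 1
  have h1 : Summable fun p : Nat.Primes => (-Complex.log (1 - χ p * ((p : ℕ) : ℂ) ^ (-s)) -
      χ p * ((p : ℕ) : ℂ) ^ (-s)) :=
    Summable.of_norm_bounded ((summ_Z (x := s.re) (by linarith)).mul_left 2) fun p =>
      gterm_le χ p (by linarith)
  unfold GG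
  rw [← (summ_P χ hs).tsum_add h1]
  exact tsum_congr fun p => by ring

theorem LS_le {q : ℕ} (χ : DirichletCharacter ℂ q) {s : ℂ} (hs : 2 ≤ s.re) :
    ‖LSeries (cP χ) s‖ ≤ ZZ 1 := by
  rw [LS_eq_tsum]
  unfold ZZ
  refine tsum_of_norm_bounded (summ_Z (by norm_num)).hasSum fun p => ?_
  refine (term_norm χ p s).trans ?_
  have h1 : (1 : ℝ) ≤ p := by exact_mod_cast p.2.one_lt.le
  exact Real.rpow_le_rpow_of_exponent_le h1 (by linarith)

theorem LS_diff {q : ℕ} (χ : DirichletCharacter ℂ q) {s : ℂ} (hs : 1 < s.re) :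
    DifferentiableAt ℂ (LSeries (cP χ)) s := by
  refine (LSeries_hasDerivAt ?_).differentiableAt
  refine lt_of_le_of_lt ?_ (show ((1 : ℝ) : EReal) < (s.re : EReal) by exact_mod_cast hs)
  refine LSeries.abscissaOfAbsConv_le_of_forall_lt_LSeriesSummable fun y hy => ?_
  exact LSeriesSummable_of_bounded_of_one_lt_re (fun n _ => cP_le χ n) (by simpa using hy)

end Pool.Agent.H564.SC
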