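import Pool.Graph.R_seed8.W66.PA
import Pool.Graph.R_seed8.TH270.MS.PW
import Pool.Graph.R_pool_sql_team_seeded_b0a926ef.R429.DM.Up

/-! A uniform bound for the sums of the coefficients of a Dirichlet series with bounded complex
coefficients, from a bound of its continuation. (The method is the one of
`Pool.Agent.R429.DM.Up`, for real coefficients.) -/

set_option autoImplicit false

open MeasureTheory Filter Topology Set Complex
open Pool.Agent.H379R2.SW (vert vert_re vert_im vert_ne_zero continuous_vert)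
open Pool.Agent.W66
open Pool.Agent.R429.DM.Up (norm_exp_vert exp_sub_one_le int_tail one_add_le_norm)

namespace Pool.Agent.H564.SC

variable {lam : ℕ → ℝ} {c : ℕ → ℂ} {σ : ℝ}

/-- the Dirichlet series -/
noncomputable def DC (lam : ℕ → ℝ) (c : ℕ → ℂ) (s : ℂ) : ℂ := ∑' n, c n * cexp (-(s * lam n))

/-- the difference of two first Riesz sums by Perron's formula -/
theorem perron (hσ : 0 < σ) (hlam : ∀ n, 0 ≤ lam n)
    (hsum : Summable fun n => ‖c n‖ * Real.exp (-(σ * lam n))) {x : ℝ} (hx : σ ≤ x) (T h : ℝ) :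
    (∑' n, c n * ((max (T + h - lam n) 0 - max (T - lam n) 0 : ℝ) : ℂ)) =
      ∫ ξ : ℝ, cexp (vert x ξ * T) * (cexp (vert x ξ * h) - 1) * DC lam c (vert x ξ) /
        (vert x ξ) ^ 2 := by
  have hx0 : 0 < x := lt_of_lt_of_le hσ hx
  set F : ℕ → ℝ → ℂ := fun n ξ => c n *
    (cexp (vert x ξ * ((T + h - lam n : ℝ) : ℂ)) / (vert x ξ) ^ 2 -
      cexp (vert x ξ * ((T - lam n : ℝ) : ℂ)) / (vert x ξ) ^ 2) with hF
  have hFi : ∀ n, Integrable (F n) := fun n =>
    ((integrable_exp_vert hx0 _).sub (integrable_exp_vert hx0 _)).const_mul _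
  set I₀ : ℝ := ∫ ξ : ℝ, (‖vert x ξ‖ ^ 2)⁻¹ with hI₀
  have hI₀0 : 0 ≤ I₀ := integral_nonneg fun ξ => by positivity
  have hFn : ∀ n, ∫ ξ : ℝ, ‖F n ξ‖ ≤
      (‖c n‖ * Real.exp (-(σ * lam n))) * ((Real.exp (x * (T + h)) + Real.exp (x * T)) * I₀) := by
    intro n
    have h1 : ∀ ξ : ℝ, ‖F n ξ‖ ≤ (‖c n‖ * (Real.exp (x * (T + h - lam n)) +
        Real.exp (x * (T - lam n)))) * (‖vert x ξ‖ ^ 2)⁻¹ := by
      intro ξ
      rw [hF]
      simp only
      rw [norm_mul, mul_assoc]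
      refine mul_le_mul_of_nonneg_left ?_ (norm_nonneg _)
      refine (norm_sub_le _ _).trans (le_of_eq ?_)
      rw [norm_div, norm_div, norm_pow, norm_exp_vert, norm_exp_vert]
      ring
    have h2 := integral_mono (hFi n).norm ((integrable_inv_norm_vert_sq' hx0).const_mul _) h1
    rw [integral_const_mul] at h2
    refine h2.trans ?_
    have h3 : Real.exp (x * (T + h - lam n)) + Real.exp (x * (T - lam n)) =
        Real.exp (-(x * lam n)) * (Real.exp (x * (T + h)) + Real.exp (x * T)) := by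
      rw [mul_add (Real.exp (-(x * lam n))), ← Real.exp_add, ← Real.exp_add]
      congr 2 <;> ring
    have h4 : Real.exp (-(x * lam n)) ≤ Real.exp (-(σ * lam n)) := by
      apply Real.exp_le_exp.2
      have h2 := hlam n
      nlinarith
    rw [h3]
    calc ‖c n‖ * (Real.exp (-(x * lam n)) * (Real.exp (x * (T + h)) + Real.exp (x * T))) * I₀
        ≤ ‖c n‖ * (Real.exp (-(σ * lam n)) * (Real.exp (x * (T + h)) + Real.exp (x * T))) * I₀ := by
          gcongr
      _ = _ := by ring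
  have hFs : Summable fun n => ∫ ξ : ℝ, ‖F n ξ‖ :=
    Summable.of_nonneg_of_le (fun n => integral_nonneg fun ξ => norm_nonneg _) hFn
      (hsum.mul_right _)
  have h1 := integral_tsum_of_summable_integral_norm hFi hFs
  have h2 : ∀ ξ : ℝ, ∑' n, F n ξ = cexp (vert x ξ * T) * (cexp (vert x ξ * h) - 1) *
      DC lam c (vert x ξ) / (vert x ξ) ^ 2 := by
    intro ξ
    unfold DC
    rw [← tsum_mul_left, ← tsum_div_const]
    refine tsum_congr fun n => ?_
    rw [hF]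
    simp only
    have e1 : cexp (vert x ξ * ((T + h - lam n : ℝ) : ℂ)) =
        cexp (vert x ξ * T) * cexp (vert x ξ * h) * cexp (-(vert x ξ * lam n)) := by
      rw [← Complex.exp_add, ← Complex.exp_add]
      congr 1
      push_cast
      ring
    have e2 : cexp (vert x ξ * ((T - lam n : ℝ) : ℂ)) =
        cexp (vert x ξ * T) * cexp (-(vert x ξ * lam n)) := by
      rw [← Complex.exp_add]
      congr 1
      push_cast
      ring
    rw [e1, e2]
    ring
  have h3 : ∀ n, ∫ ξ : ℝ, F n ξ = c n * ((max (T + h - lam n) 0 - max (T - lam n) 0 : ℝ) : ℂ) := by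
    intro n
    rw [hF]
    simp only
    rw [integral_const_mul, integral_sub (integrable_exp_vert hx0 _) (integrable_exp_vert hx0 _),
      perron_vert hx0, perron_vert hx0]
    push_cast
    ring
  simp only [h2, h3] at h1
  exact h1

/-- **The bound of the difference of the first Riesz sums**, with an explicit constant. -/
theorem diff_le (hσ : 0 < σ) (hlam : ∀ n, 0 ≤ lam n)
    (hsum : Summable fun n => ‖c n‖ * Real.exp (-(σ * lam n)))
    {Λ : ℂ → ℂ} {x B ε : ℝ} (hx : 0 < x) (hxσ : x < σ + 1)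
    (hd : ∀ s : ℂ, x ≤ s.re → DifferentiableAt ℂ Λ s)
    (he : ∀ s : ℂ, σ < s.re → Λ s = DC lam c s) (hε : 0 < ε) (hε2 : ε ≤ 1 / 2) (hB : 0 ≤ B)
    (hb : ∀ s : ℂ, x ≤ s.re → s.re ≤ σ + 1 → ‖Λ s‖ ≤ B * (1 + |s.im|) ^ ε) :
    ∀ T h : ℝ, 0 ≤ h → h ≤ 1 →
      ‖∑' n, c n * ((max (T + h - lam n) 0 - max (T - lam n) 0 : ℝ) : ℂ)‖ ≤
        ((2 * Real.pi)⁻¹ * (2 * Real.exp x * (1 + 1 / x) ^ (2 - (1 - 2 * ε)) *
          ∫ t : ℝ, (1 + |t|) ^ (-(1 + ε)))) * B * (Real.exp (x * T) * h ^ (1 - 2 * ε)) := by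
  have hb' : ∀ s : ℂ, x ≤ s.re → s.re ≤ σ + 1 → ‖Λ s‖ ≤ B * (1 + |s.im|) ^ (1 / 2 : ℝ) := by
    intro s h1 h2
    refine (hb s h1 h2).trans (mul_le_mul_of_nonneg_left ?_ hB)
    exact Real.rpow_le_rpow_of_exponent_le (by linarith [abs_nonneg s.im]) hε2
  set θ : ℝ := 1 - 2 * ε with hθ
  have hθ0 : 0 ≤ θ := by rw [hθ]; linarith
  have hθ1 : θ ≤ 1 := by rw [hθ]; linarith
  set I₁ : ℝ := ∫ t : ℝ, (1 + |t|) ^ (-(1 + ε)) with hI₁
  have hI₁0 : 0 ≤ I₁ := integral_nonneg fun t => by positivity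
  set C₂ : ℝ := 2 * Real.exp x * B * (1 + 1 / x) ^ (2 - θ) with hC₂
  have hC₂0 : 0 ≤ C₂ := by positivity
  intro T h hh hh1
  set H : ℂ → ℂ := fun s => cexp (s * T) * (cexp (s * h) - 1) * Λ s / s ^ 2 with hH
  -- the formula on the line `σ + 1`
  have h1 : (∑' n, c n * ((max (T + h - lam n) 0 - max (T - lam n) 0 : ℝ) : ℂ)) =
      (((2 * Real.pi)⁻¹ : ℝ) : ℂ) * ∫ t : ℝ, H (((σ + 1 : ℝ) : ℂ) + t * I) := by
    rw [perron hσ hlam hsum (x := σ + 1) (by linarith) T h,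
      ← Pool.Agent.TH270.MS.PW.scale_integral]
    refine integral_congr_ae (Eventually.of_forall fun ξ => ?_)
    simp only
    have e1 : vert (σ + 1) ξ = ((σ + 1 : ℝ) : ℂ) + 2 * Real.pi * ξ * I := by
      unfold vert
      push_cast
      ring
    rw [← e1, hH]
    simp only
    rw [he _ (by rw [vert_re]; linarith)]
  have hs0 : ∀ s : ℂ, x ≤ s.re → s ≠ 0 := fun s hs => by
    rintro rfl
    simp at hs
    linarith
  -- the shift
  have h2 : ∫ t : ℝ, H ((x : ℂ) + t * I) = ∫ t : ℝ, H (((σ + 1 : ℝ) : ℂ) + t * I) := by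
    refine Pool.Agent.TH270.MS.PW.contour_shift (a := x) (b := σ + 1)
      (B := Real.exp ((σ + 1) * |T|) * (Real.exp (σ + 1) + 1) * B * (1 + 1 / x) ^ 2) hxσ.le
      (fun s hs _ => ?_) (fun s hs hs2 => ?_)
    · have := hd s hs
      exact ((((by fun_prop : DifferentiableAt ℂ (fun s : ℂ => cexp (s * T)) s).mul
        (by fun_prop : DifferentiableAt ℂ (fun s : ℂ => cexp (s * h) - 1) s)).mul this).div
        (differentiableAt_id.pow 2) (pow_ne_zero 2 (hs0 s hs)))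
    · have hn : 0 < ‖s‖ := norm_pos_iff.2 (hs0 s hs)
      have hre : 0 < s.re := hx.trans_le hs
      have a1 : ‖cexp (s * T)‖ ≤ Real.exp ((σ + 1) * |T|) := by
        rw [Complex.norm_exp]
        apply Real.exp_le_exp.2
        have : (s * T).re = s.re * T := by simp
        rw [this]
        calc s.re * T ≤ s.re * |T| := mul_le_mul_of_nonneg_left (le_abs_self T) hre.le
          _ ≤ _ := mul_le_mul_of_nonneg_right hs2 (abs_nonneg T)
      have a2 : ‖cexp (s * h) - 1‖ ≤ Real.exp (σ + 1) + 1 := by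
        refine (norm_sub_le _ _).trans ?_
        rw [Complex.norm_exp, norm_one]
        have : (s * h).re = s.re * h := by simp
        rw [this]
        have : s.re * h ≤ σ + 1 := by nlinarith
        linarith [Real.exp_le_exp.2 this]
      have a3 := hb' s hs hs2
      have a4 : (1 + |s.im|) ^ (2 : ℕ) ≤ (1 + 1 / x) ^ 2 * ‖s‖ ^ 2 := by
        rw [← mul_pow]
        exact pow_le_pow_left₀ (by positivity) (one_add_le_norm hx hs) 2
      have a5 : (1 + |s.im|) ^ (-(3 / 2 : ℝ)) =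
          (1 + |s.im|) ^ (1 / 2 : ℝ) / (1 + |s.im|) ^ (2 : ℕ) := by
        rw [← Real.rpow_natCast, ← Real.rpow_sub (by positivity)]
        norm_num
      have hp : 0 < (1 + |s.im|) ^ (2 : ℕ) := by positivity
      rw [hH]
      simp only
      rw [norm_div, norm_mul, norm_mul, norm_pow, div_le_iff₀ (by positivity), a5]
      have a6 : 1 ≤ (1 + 1 / x) ^ 2 * ‖s‖ ^ 2 / (1 + |s.im|) ^ (2 : ℕ) := by
        rw [le_div_iff₀ hp, one_mul]
        exact a4
      calc ‖cexp (s * T)‖ * ‖cexp (s * h) - 1‖ * ‖Λ s‖ ≤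
          Real.exp ((σ + 1) * |T|) * (Real.exp (σ + 1) + 1) * (B * (1 + |s.im|) ^ (1 / 2 : ℝ)) := by
            gcongr
        _ ≤ Real.exp ((σ + 1) * |T|) * (Real.exp (σ + 1) + 1) * (B * (1 + |s.im|) ^ (1 / 2 : ℝ)) *
            ((1 + 1 / x) ^ 2 * ‖s‖ ^ 2 / (1 + |s.im|) ^ (2 : ℕ)) :=
          le_mul_of_one_le_right (by positivity) a6
        _ = _ := by ring
  -- the bound on the line `x`
  have h3 : ∀ t : ℝ, ‖H ((x : ℂ) + t * I)‖ ≤
      C₂ * Real.exp (x * T) * h ^ θ * (1 + |t|) ^ (-(1 + ε)) := by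
    intro t
    set s : ℂ := (x : ℂ) + t * I with hs
    have hsre : s.re = x := by simp [hs]
    have hsim : s.im = t := by simp [hs]
    have hn : 0 < ‖s‖ := norm_pos_iff.2 (hs0 s hsre.ge)
    have b1 : ‖cexp (s * T)‖ = Real.exp (x * T) := by
      rw [Complex.norm_exp]
      congr 1
      simp [hsre]
    have b2 : ‖cexp (s * h) - 1‖ ≤ 2 * Real.exp x * (‖s‖ ^ θ * h ^ θ) := by
      refine (exp_sub_one_le (by rw [hsre]; exact hx.le) hh hθ0 hθ1).trans ?_
      rw [Real.mul_rpow (norm_nonneg _) hh, hsre]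
      have : Real.exp (x * h) ≤ Real.exp x := Real.exp_le_exp.2 (by nlinarith)
      gcongr
    have b3 := hb s hsre.ge (by rw [hsre]; exact hxσ.le)
    rw [hsim] at b3
    have b4 : 1 + |t| ≤ (1 + 1 / x) * ‖s‖ := by
      have := one_add_le_norm hx (s := s) hsre.ge
      rwa [hsim] at this
    have b5 : ‖s‖ ^ θ / ‖s‖ ^ 2 ≤ (1 + 1 / x) ^ (2 - θ) * (1 + |t|) ^ (θ - 2) := by
      have c1 : ‖s‖ ^ θ / ‖s‖ ^ 2 = ‖s‖ ^ (θ - 2) := by
        rw [← Real.rpow_natCast, ← Real.rpow_sub hn]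
        norm_num
      have c2 : 0 < 1 + 1 / x := by positivity
      have c3 : (1 + |t|) / (1 + 1 / x) ≤ ‖s‖ := by
        rw [div_le_iff₀ c2]
        linarith
      have c4 : ‖s‖ ^ (θ - 2) ≤ ((1 + |t|) / (1 + 1 / x)) ^ (θ - 2) :=
        Real.rpow_le_rpow_of_nonpos (by positivity) c3 (by linarith)
      rw [c1]
      refine c4.trans (le_of_eq ?_)
      rw [Real.div_rpow (by positivity) c2.le, show (2 - θ : ℝ) = -(θ - 2) by ring,
        Real.rpow_neg c2.le, div_eq_mul_inv, mul_comm]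
    have b6 : (1 + |t|) ^ (θ - 2) * (1 + |t|) ^ ε = (1 + |t|) ^ (-(1 + ε)) := by
      rw [← Real.rpow_add (by positivity)]
      congr 1
      rw [hθ]
      ring
    rw [hH]
    simp only
    rw [norm_div, norm_mul, norm_mul, norm_pow, b1]
    calc Real.exp (x * T) * ‖cexp (s * h) - 1‖ * ‖Λ s‖ / ‖s‖ ^ 2 ≤
        Real.exp (x * T) * (2 * Real.exp x * (‖s‖ ^ θ * h ^ θ)) * (B * (1 + |t|) ^ ε) / ‖s‖ ^ 2 := by
          gcongr
      _ = 2 * Real.exp x * B * Real.exp (x * T) * h ^ θ * (‖s‖ ^ θ / ‖s‖ ^ 2) * (1 + |t|) ^ ε := by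
          ring
      _ ≤ 2 * Real.exp x * B * Real.exp (x * T) * h ^ θ *
          ((1 + 1 / x) ^ (2 - θ) * (1 + |t|) ^ (θ - 2)) * (1 + |t|) ^ ε := by
          gcongr
      _ = C₂ * Real.exp (x * T) * h ^ θ * ((1 + |t|) ^ (θ - 2) * (1 + |t|) ^ ε) := by
          rw [hC₂]
          ring
      _ = _ := by rw [b6]
  have h4 : ‖∫ t : ℝ, H ((x : ℂ) + t * I)‖ ≤ C₂ * Real.exp (x * T) * h ^ θ * I₁ := by
    rw [hI₁, ← integral_const_mul]
    exact norm_integral_le_of_norm_le ((int_tail (by linarith)).const_mul _)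
      (Eventually.of_forall h3)
  rw [h1, norm_mul, ← h2]
  have h5 : ‖(((2 * Real.pi)⁻¹ : ℝ) : ℂ)‖ = (2 * Real.pi)⁻¹ := by
    rw [Complex.norm_real, Real.norm_of_nonneg (by positivity)]
  rw [h5]
  calc (2 * Real.pi)⁻¹ * ‖∫ t : ℝ, H ((x : ℂ) + t * I)‖ ≤
      (2 * Real.pi)⁻¹ * (C₂ * Real.exp (x * T) * h ^ θ * I₁) := by
        gcongr
    _ = _ := by rw [hC₂]; ring

end Pool.Agent.H564.SC
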