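import Pool.Agent.H564.SC.LogL

/-! Zero-free half planes and the sums of `χ(p)`, uniformly in the modulus. -/

set_option autoImplicit false

open MeasureTheory Filter Topology Set Complex
open Pool.Agent.TH942.RZ (HP HP_open HP_convex exists_log log_unique)

namespace Pool.Agent.H564.SC

/-- the continuation of `∑ χ(p) p^(-s)` to a zero-free half plane, with a uniform bound -/
theorem exists_P {q : ℕ} [NeZero q] {χ : DirichletCharacter ℂ q} (hχ : χ ≠ 1) {a x ε : ℝ}
    (ha : 1 / 2 ≤ a) (ha1 : a < 1) (hax : a < x) (hx : x ≤ 3 / 2) (hε : 0 < ε)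
    (hne : ∀ s : ℂ, a < s.re → DirichletCharacter.LFunction χ s ≠ 0) :
    ∃ Λ : ℂ → ℂ, (∀ s : ℂ, x ≤ s.re → DifferentiableAt ℂ Λ s) ∧
      (∀ s : ℂ, 2 < s.re → Λ s = DC lg (cP χ) s) ∧
      ∀ s : ℂ, x ≤ s.re → s.re ≤ 3 → ‖Λ s‖ ≤
        ((8 * (3 + 1 / ε) + 24 * ZZ 1) / (x - a) + 3 * ZZ x + ZZ 1) * (1 + Real.log q) *
          (1 + |s.im|) ^ ε := by
  have hq1 : (1 : ℝ) ≤ q := by exact_mod_cast Nat.pos_of_ne_zero (NeZero.ne q)
  have hlq : 0 ≤ Real.log q := Real.log_nonneg hq1
  obtain ⟨L₀, h1, h2⟩ := exists_log (HP_open a) (HP_convex a) (Ψ := DirichletCharacter.LFunction χ)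
    (DirichletCharacter.differentiable_LFunction hχ).differentiableOn hne
  set κ : ℂ := LSeries (cP χ) 2 + GG χ 2 - L₀ 2 with hκ
  have h3 : ∀ s : ℂ, 1 < s.re → L₀ s + κ = LSeries (cP χ) s + GG χ s := by
    intro s hs
    have := log_unique (U := HP 1) (HP_convex 1) (f := L₀) (g := fun s => LSeries (cP χ) s + GG χ s)
      (f' := fun s => deriv (DirichletCharacter.LFunction χ) s / DirichletCharacter.LFunction χ s)
      (g' := fun s => deriv (LSeries (cP χ)) s + deriv (GG χ) s)
      (fun z hz => h1 z (show a < z.re from lt_trans ha1 hz)) (fun z hz =>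
        ((LS_diff χ (show 1 < z.re from hz)).hasDerivAt).add
          ((GG_diff χ (show 1 / 2 < z.re by have : 1 < z.re := hz; linarith)).hasDerivAt))
      (fun z hz => by
        rw [h2 z (show a < z.re from lt_trans ha1 hz)]
        exact (euler χ (show 1 < z.re from hz)).symm) (HP_open 1)
      (z := s) (w := 2) hs (show (1 : ℝ) < (2 : ℂ).re by norm_num)
    rw [hκ]
    linear_combination this
  have hκ1 : exp κ = 1 := by
    have h4 : exp (L₀ 2) = exp (LSeries (cP χ) 2 + GG χ 2) := by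
      rw [h2 2 (show a < (2 : ℂ).re by simp; linarith), euler χ (by norm_num)]
    rw [hκ, Complex.exp_sub, ← h4, div_self (exp_ne_zero _)]
  set Lg : ℂ → ℂ := fun s => L₀ s + κ with hLg
  have hLd : ∀ s : ℂ, a < s.re → DifferentiableAt ℂ Lg s := fun s hs =>
    ((h1 s hs).add_const κ).differentiableAt
  have hLe : ∀ s : ℂ, a < s.re → exp (Lg s) = DirichletCharacter.LFunction χ s := by
    intro s hs
    simp only [hLg]
    rw [Complex.exp_add, hκ1, mul_one, h2 s hs]
  have hZ0 := ZZ_nonneg 1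
  have hx12 : 1 / 2 < x := by linarith
  have hρ : 0 < x - a := by linarith
  -- the bound of the logarithm
  have hbound : ∀ s : ℂ, x ≤ s.re → s.re ≤ 2 → ‖Lg s‖ ≤
      (8 * (3 + 1 / ε) + 24 * ZZ 1) / (x - a) * (1 + Real.log q) * (1 + |s.im|) ^ ε := by
    intro s hs hs2
    set t : ℝ := s.im with ht
    set z₀ : ℂ := (2 : ℂ) + t * I with hz₀
    have hz₀re : z₀.re = 2 := by simp [hz₀]
    have hz₀im : z₀.im = t := by simp [hz₀]
    set R : ℝ := 2 - (a + x) / 2 with hR
    have hR0 : 0 < R := by rw [hR]; linarith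
    have hR2 : R ≤ 3 / 2 := by rw [hR]; linarith
    set z : ℂ := ((s.re - 2 : ℝ) : ℂ) with hz
    have hzn : ‖z‖ = 2 - s.re := by
      rw [hz, Complex.norm_real, Real.norm_eq_abs, abs_of_nonpos (by linarith)]
      ring
    have hsz : z₀ + z = s := by
      apply Complex.ext
      · rw [Complex.add_re, hz₀re, hz, Complex.ofReal_re]; ring
      · rw [Complex.add_im, hz₀im, hz, Complex.ofReal_im, add_zero]
    have hzR : z ∈ Metric.ball (0 : ℂ) R := by
      rw [Metric.mem_ball, dist_zero_right, hzn, hR]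
      linarith
    have hball : ∀ w ∈ Metric.ball (0 : ℂ) R, (a + x) / 2 < (z₀ + w).re := by
      intro w hw
      rw [Metric.mem_ball, dist_zero_right] at hw
      rw [Complex.add_re, hz₀re]
      have := neg_le_of_abs_le (Complex.abs_re_le_norm w)
      rw [hR] at hw
      linarith
    set M : ℝ := Real.log (2 * q * (4 + |t|)) with hM
    have hM1 : (8 : ℝ) ≤ 2 * q * (4 + |t|) := by
      have := abs_nonneg t
      nlinarith
    have hM0 : 0 < M := Real.log_pos (by linarith)
    have hfd : DifferentiableOn ℂ (fun w => Lg (z₀ + w)) (Metric.ball 0 R) := by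
      intro w hw
      have h5 := hball w hw
      have h6 : DifferentiableAt ℂ Lg (z₀ + w) := hLd _ (by linarith)
      exact (DifferentiableAt.comp (f := fun w => z₀ + w) w h6 (by fun_prop)).differentiableWithinAt
    have hfM : Set.MapsTo (fun w => Lg (z₀ + w)) (Metric.ball 0 R) {z | z.re ≤ M} := by
      intro w hw
      have h5 := hball w hw
      have h6 := hLe (z₀ + w) (by linarith)
      have h7 : Real.exp (Lg (z₀ + w)).re = ‖DirichletCharacter.LFunction χ (z₀ + w)‖ := by
        rw [← h6, Complex.norm_exp]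
      have h8 := LFunction_le hχ (s := z₀ + w) (by linarith)
      have h9 : ‖z₀ + w‖ ≤ 4 + |t| := by
        refine (norm_add_le _ _).trans ?_
        rw [Metric.mem_ball, dist_zero_right] at hw
        have h10 : ‖z₀‖ ≤ 2 + |t| := by
          rw [hz₀]
          refine (norm_add_le _ _).trans ?_
          rw [norm_mul, Complex.norm_I, mul_one, Complex.norm_real, Real.norm_eq_abs]
          norm_num
        linarith
      have h11 : Real.exp (Lg (z₀ + w)).re ≤ 2 * q * (4 + |t|) := by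
        rw [h7]
        exact h8.trans (mul_le_mul_of_nonneg_left h9 (by positivity))
      have h12 : (Lg (z₀ + w)).re ≤ M := by
        rw [hM, Real.le_log_iff_exp_le (by linarith)]
        exact h11
      exact h12
    have hBC := Complex.borelCaratheodory hM0 hfd hfM hR0 hzR
    simp only [hsz, add_zero] at hBC
    rw [hzn] at hBC
    have hf0 : ‖Lg z₀‖ ≤ 3 * ZZ 1 := by
      simp only [hLg]
      rw [h3 z₀ (by rw [hz₀re]; norm_num)]
      refine (norm_add_le _ _).trans ?_
      have a1 := LS_le χ (s := z₀) (by rw [hz₀re])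
      have a2 := GG_le χ (x := 1) (by norm_num) (s := z₀) (by rw [hz₀re]; norm_num)
      linarith
    have hden : (x - a) / 2 ≤ R - (2 - s.re) := by rw [hR]; linarith
    have hden0 : 0 < R - (2 - s.re) := by linarith
    have hMle : M ≤ (3 + 1 / ε) * (1 + Real.log q) * (1 + |t|) ^ ε := by
      have e1 : M ≤ Real.log 8 + Real.log q + Real.log (1 + |t|) := by
        rw [hM, ← Real.log_mul (by norm_num) (by linarith), ← Real.log_mul (by positivity)
          (by positivity)]
        refine Real.log_le_log (by linarith) ?_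
        have := abs_nonneg t
        nlinarith
      have e2 : Real.log 8 ≤ 3 := by
        have : Real.log 8 = 3 * Real.log 2 := by
          rw [show (8 : ℝ) = 2 ^ 3 by norm_num, Real.log_pow]
          norm_num
        rw [this]
        have := Real.log_two_lt_d9
        linarith
      have e3 : Real.log (1 + |t|) ≤ (1 + |t|) ^ ε / ε := Real.log_le_rpow_div (by positivity) hε
      have e4 : 1 ≤ (1 + |t|) ^ ε := Real.one_le_rpow (by linarith [abs_nonneg t]) hε.le
      have e5 : (1 + |t|) ^ ε / ε = 1 / ε * (1 + |t|) ^ ε := by ring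
      rw [e5] at e3
      have e6 : 0 < 1 / ε := by positivity
      calc M ≤ 3 + Real.log q + 1 / ε * (1 + |t|) ^ ε := by linarith
        _ ≤ (3 + Real.log q) * (1 + |t|) ^ ε + 1 / ε * (1 + |t|) ^ ε := by nlinarith
        _ = (3 + Real.log q + 1 / ε) * (1 + |t|) ^ ε := by ring
        _ ≤ ((3 + 1 / ε) * (1 + Real.log q)) * (1 + |t|) ^ ε := by
            refine mul_le_mul_of_nonneg_right ?_ (by positivity)
            nlinarith
        _ = _ := by ring
    have hL1 : 1 ≤ (1 + Real.log q) * (1 + |t|) ^ ε := by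
      have e4 : 1 ≤ (1 + |t|) ^ ε := Real.one_le_rpow (by linarith [abs_nonneg t]) hε.le
      nlinarith
    refine hBC.trans ?_
    have g1 : 2 * M * (2 - s.re) / (R - (2 - s.re)) ≤ 8 * M / (x - a) := by
      rw [div_le_div_iff₀ hden0 hρ]
      have : 2 - s.re ≤ 2 := by linarith
      nlinarith [mul_le_mul_of_nonneg_left this hM0.le, mul_pos hM0 hρ]
    have g2 : ‖Lg z₀‖ * (R + (2 - s.re)) / (R - (2 - s.re)) ≤ 24 * ZZ 1 / (x - a) := by
      rw [div_le_div_iff₀ hden0 hρ]
      have h5 : R + (2 - s.re) ≤ 4 := by linarith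
      have h6 : ‖Lg z₀‖ * (R + (2 - s.re)) ≤ 3 * ZZ 1 * 4 :=
        mul_le_mul hf0 h5 (by linarith) (by positivity)
      calc ‖Lg z₀‖ * (R + (2 - s.re)) * (x - a) ≤ (3 * ZZ 1 * 4) * (x - a) :=
            mul_le_mul_of_nonneg_right h6 hρ.le
        _ = 24 * ZZ 1 * ((x - a) / 2) := by ring
        _ ≤ _ := mul_le_mul_of_nonneg_left hden (by positivity)
    refine (add_le_add g1 g2).trans ?_
    have g3 : 8 * M / (x - a) ≤ 8 * ((3 + 1 / ε) * (1 + Real.log q) * (1 + |t|) ^ ε) / (x - a) := by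
      gcongr
    have g4 : 24 * ZZ 1 / (x - a) ≤ 24 * ZZ 1 / (x - a) * ((1 + Real.log q) * (1 + |t|) ^ ε) :=
      le_mul_of_one_le_right (by positivity) hL1
    refine (add_le_add g3 g4).trans (le_of_eq ?_)
    ring
  refine ⟨fun s => Lg s - GG χ s, fun s hs => ?_, fun s hs => ?_, fun s hs hs3 => ?_⟩
  · exact (hLd s (by linarith)).sub (GG_diff χ (by linarith))
  · simp only
    rw [DC_eq]
    have := h3 s (by linarith)
    simp only [hLg]
    rw [this]
    ring
  · have hL1 : 1 ≤ (1 + Real.log q) * (1 + |s.im|) ^ ε := by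
      have e4 : 1 ≤ (1 + |s.im|) ^ ε := Real.one_le_rpow (by linarith [abs_nonneg s.im]) hε.le
      nlinarith
    have hZx := ZZ_nonneg x
    have hA0 : 0 ≤ (8 * (3 + 1 / ε) + 24 * ZZ 1) / (x - a) := by positivity
    rcases le_or_gt s.re 2 with h5 | h5
    · have h6 := hbound s hs h5
      have h7 := GG_le χ hx12 hs
      refine (norm_sub_le _ _).trans ?_
      have h8 : 2 * ZZ x ≤ (3 * ZZ x + ZZ 1) * ((1 + Real.log q) * (1 + |s.im|) ^ ε) := by
        nlinarith [mul_nonneg (by linarith : 0 ≤ 3 * ZZ x + ZZ 1) (sub_nonneg.2 hL1)]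
      calc _ ≤ (8 * (3 + 1 / ε) + 24 * ZZ 1) / (x - a) * (1 + Real.log q) * (1 + |s.im|) ^ ε +
            (3 * ZZ x + ZZ 1) * ((1 + Real.log q) * (1 + |s.im|) ^ ε) :=
            add_le_add h6 (h7.trans h8)
        _ = _ := by ring
    · simp only [hLg]
      rw [h3 s (by linarith), add_sub_cancel_right]
      refine (LS_le χ h5.le).trans ?_
      rw [mul_assoc]
      refine le_trans ?_ (le_mul_of_one_le_right (by positivity) hL1)
      linarith

/-- **Uniform bound**: if `L(s, χ)` has no zeros with `Re s > a` then the sums of `χ(p)` are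
`O((1 + log q) X^(a + ε))`, with a constant that depends only on `a` and `ε`. -/
theorem up_unif {a : ℝ} (ha : 1 / 2 ≤ a) {ε : ℝ} (hε : 0 < ε) :
    ∃ C : ℝ, ∀ (q : ℕ) [NeZero q] (χ : DirichletCharacter ℂ q), χ ≠ 1 →
      (∀ s : ℂ, a < s.re → DirichletCharacter.LFunction χ s ≠ 0) → ∀ X : ℝ, 1 ≤ X →
      ‖∑ n ∈ Finset.range (⌊X⌋₊ + 1), cP χ n‖ ≤ C * (1 + Real.log q) * X ^ (a + ε) := by
  rcases le_or_gt 1 a with h1a | ha1
  · refine ⟨2, fun q _ χ _ _ X hX => ?_⟩
    have hq1 : (1 : ℝ) ≤ q := by exact_mod_cast Nat.pos_of_ne_zero (NeZero.ne q)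
    have hlq : 0 ≤ Real.log q := Real.log_nonneg hq1
    have h1 : ∀ n ∈ Finset.range (⌊X⌋₊ + 1), ‖cP χ n‖ ≤ 1 := fun n _ => cP_le χ n
    refine (norm_sum_le_of_le _ h1).trans ?_
    rw [Finset.sum_const, Finset.card_range, nsmul_eq_mul, mul_one]
    push_cast
    have h2 : (⌊X⌋₊ : ℝ) ≤ X := Nat.floor_le (by linarith)
    have h3 : X ≤ X ^ (a + ε) := by
      calc X = X ^ (1 : ℝ) := (Real.rpow_one X).symm
        _ ≤ _ := Real.rpow_le_rpow_of_exponent_le hX (by linarith)
    have h4 : 2 * X ^ (a + ε) ≤ 2 * (1 + Real.log q) * X ^ (a + ε) := by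
      have : 0 ≤ X ^ (a + ε) := by positivity
      nlinarith
    linarith
  · set e : ℝ := min (ε / 2) (1 / 4) with he
    have he0 : 0 < e := lt_min (by linarith) (by norm_num)
    have he1 : e ≤ ε / 2 := min_le_left _ _
    have he2 : e ≤ 1 / 4 := min_le_right _ _
    set x : ℝ := a + e with hx
    have hx0 : 0 < x := by linarith
    set K₀ : ℝ := (8 * (3 + 1 / e) + 24 * ZZ 1) / (x - a) + 3 * ZZ x + ZZ 1 with hK₀
    have hK₀0 : 0 ≤ K₀ := by
      have := ZZ_nonneg 1
      have := ZZ_nonneg x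
      have : 0 < x - a := by rw [hx]; linarith
      positivity
    refine ⟨KK x e * K₀ + 3, fun q _ χ hχ hne X hX => ?_⟩
    have hq1 : (1 : ℝ) ≤ q := by exact_mod_cast Nat.pos_of_ne_zero (NeZero.ne q)
    have hlq : 0 ≤ Real.log q := Real.log_nonneg hq1
    obtain ⟨Λ, h1, h2, h3⟩ := exists_P hχ ha ha1 (x := x) (by rw [hx]; linarith) (by linarith)
      he0 hne
    have h4 := sharp (c := cP χ) (cP_le χ) (cP_zero χ) hx0 (by linarith) h1 h2 he0 (by linarith)
      (B := K₀ * (1 + Real.log q)) (by positivity) h3 hX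
    refine h4.trans ?_
    have h5 : X ^ (x + e) ≤ X ^ (a + ε) :=
      Real.rpow_le_rpow_of_exponent_le hX (by rw [hx]; linarith)
    have h6 : X ^ (1 / 2 : ℝ) ≤ X ^ (a + ε) :=
      Real.rpow_le_rpow_of_exponent_le hX (by linarith)
    have hKK := KK_nonneg (ε := e) hx0
    have h7 : 0 ≤ X ^ (a + ε) := by positivity
    calc KK x e * (K₀ * (1 + Real.log q)) * X ^ (x + e) + 3 * X ^ (1 / 2 : ℝ) ≤
        KK x e * (K₀ * (1 + Real.log q)) * X ^ (a + ε) + 3 * X ^ (a + ε) := by gcongr
      _ ≤ KK x e * (K₀ * (1 + Real.log q)) * X ^ (a + ε) + 3 * (1 + Real.log q) * X ^ (a + ε) := by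
          have : 3 * X ^ (a + ε) ≤ 3 * (1 + Real.log q) * X ^ (a + ε) := by nlinarith
          linarith
      _ = _ := by ring

/-- **The converse.** -/
theorem down {q : ℕ} [NeZero q] {χ : DirichletCharacter ℂ q} (hχ : χ ≠ 1) {a : ℝ}
    (ha : 1 / 2 ≤ a) (h : ∀ ε : ℝ, 0 < ε → ∃ C : ℝ, ∀ n : ℕ,
      ‖∑ k ∈ Finset.range (n + 1), cP χ k‖ ≤ C * ((n : ℝ) + 1) ^ (a + ε)) {s : ℂ} (hs : a < s.re) :
    DirichletCharacter.LFunction χ s ≠ 0 := by
  obtain ⟨r, hr1, hr2⟩ := exists_between hs
  obtain ⟨C, hC⟩ := h (r - a) (by linarith)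
  have hC0 : 0 ≤ C := by
    have := (norm_nonneg _).trans (hC 0)
    simpa using this
  have hC' : ∀ n : ℕ, ‖∑ k ∈ Finset.Icc 1 n, cP χ k‖ ≤ (C * 2 ^ r) * (n : ℝ) ^ r := by
    intro n
    have e1 : ∑ k ∈ Finset.Icc 1 n, cP χ k = ∑ k ∈ Finset.range (n + 1), cP χ k := by
      rw [Finset.range_eq_Ico, Finset.sum_eq_sum_Ico_succ_bot (Nat.succ_pos n), cP_zero, zero_add]
      rfl
    rcases Nat.eq_zero_or_pos n with rfl | hn
    · simp only [Finset.Icc_eq_empty (show ¬ (1 ≤ 0) by norm_num), Finset.sum_empty, norm_zero]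
      positivity
    have hn1 : (1 : ℝ) ≤ n := by exact_mod_cast hn
    rw [e1]
    refine (hC n).trans ?_
    rw [add_sub_cancel, mul_assoc, ← Real.mul_rpow (by norm_num) (by linarith)]
    refine mul_le_mul_of_nonneg_left ?_ hC0
    exact Real.rpow_le_rpow (by linarith) (by linarith) (by linarith)
  have hr0 : 0 ≤ r := by linarith
  have hCr : 0 ≤ C * 2 ^ r := by positivity
  have ho : IsOpen {z : ℂ | r < z.re} := isOpen_lt continuous_const Complex.continuous_re
  have h1 : AnalyticOnNhd ℂ (DirichletCharacter.LFunction χ) {z : ℂ | r < z.re} :=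
    (DirichletCharacter.differentiable_LFunction hχ).differentiableOn.analyticOnNhd ho
  have h2 : AnalyticOnNhd ℂ (fun z => exp (cont (cP χ) z + GG χ z)) {z : ℂ | r < z.re} := by
    refine DifferentiableOn.analyticOnNhd (fun z hz => ?_) ho
    have hz' : r < z.re := hz
    exact ((cont_diff hr0 hCr hC' hz').add (GG_diff χ (by linarith))).cexp.differentiableWithinAt
  have hpre : IsPreconnected {z : ℂ | r < z.re} := (convex_halfSpace_re_gt r).isPreconnected
  have hmem : (((r + 2 : ℝ)) : ℂ) ∈ {z : ℂ | r < z.re} := by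
    simp only [Set.mem_ofPred_eq, Complex.ofReal_re]
    linarith
  have heq := h1.eqOn_of_preconnected_of_eventuallyEq h2 hpre hmem ?_ hr2
  · rw [heq]
    exact exp_ne_zero _
  · have ho1 : IsOpen {z : ℂ | r + 1 < z.re} := isOpen_lt continuous_const Complex.continuous_re
    filter_upwards [ho1.mem_nhds (show (((r + 2 : ℝ)) : ℂ) ∈ {z : ℂ | r + 1 < z.re} by
      simp only [Set.mem_ofPred_eq, Complex.ofReal_re]; linarith)] with z hz
    have hz' : r + 1 < z.re := hz
    rw [← euler χ (by linarith)]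
    rw [cont_eq hr0 hCr hC' (by linarith) (LSeriesSummable_of_bounded_of_one_lt_re
      (fun n _ => cP_le χ n) (by linarith))]

end Pool.Agent.H564.SC
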